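import Pool.Agent.X316.ZE.TorSeq
import Pool.Agent.Y735.EL.Curves
import Pool.Agent.TH143.GE.Tow1
import Pool.Agent.X332.GT.Seqs
import Pool.Agent.X332.TO.Base

/-!
Bounded degrees of the maps from curves, relative to a closed subset.
-/

set_option autoImplicit false

open Filter Topology Set MvPolynomial

namespace Pool.Agent.X316.ZE

open scoped LinearAlgebra.Projectivization
open FF Pool.Agent.W603.LV Pool.Agent.W603.PV
open Pool.Agent.TH143.HE (RatCurvesIn IsPtP RCur NonConst ratCurvesIn_iff)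
open Pool.Agent.TH143.GE (GenusOneIn)
open Pool.Agent.Y735.EL (exists_dup exists_sq)

variable {N : ℕ} {R : Type} [CommRing R]

/-- For every smooth projective curve (with function field `L`) the degrees of the morphisms from the
curve to the variety of `I`, whose image is not contained in the variety of `I'`, are bounded. -/
def BoundedMod (σ : R →+* ℂ) (I I' : Ideal (MvPolynomial (Fin (N + 1)) R)) : Prop :=
  ∀ (L : Type) [Field L] [Algebra ℂ L] [IsFF ℂ L], ∃ B : ℤ, ∀ f : Fin (N + 1) → L, f ≠ 0 →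
    IsPtP ((algebraMap ℂ L).comp σ) I f → ¬ IsPtP ((algebraMap ℂ L).comp σ) I' f → pht ℂ f ≤ B

theorem eval₂_endo {L : Type} [Field L] [Algebra ℂ L] (σ : R →+* ℂ) (φ : L →ₐ[ℂ] L)
    (f : Fin (N + 1) → L) (G : MvPolynomial (Fin (N + 1)) R) :
    eval₂ ((algebraMap ℂ L).comp σ) (fun i => φ (f i)) G =
      φ (eval₂ ((algebraMap ℂ L).comp σ) f G) := by
  have h1 := eval₂_comp_left φ.toRingHom ((algebraMap ℂ L).comp σ) f G
  have h2 : φ.toRingHom.comp ((algebraMap ℂ L).comp σ) = (algebraMap ℂ L).comp σ := by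
    ext r
    exact φ.commutes (σ r)
  rw [h2] at h1
  exact h1.symm

theorem const_of_bdd {σ : R →+* ℂ} {I I' : Ideal (MvPolynomial (Fin (N + 1)) R)}
    {L : Type} [Field L] [Algebra ℂ L] [IsFF ℂ L] (φ : L →ₐ[ℂ] L) {M : ℕ}
    (hM : 2 ≤ M) (hφ : ∀ g, hgt ℂ (φ g) = M * hgt ℂ g) {B : ℤ}
    (hB : ∀ f : Fin (N + 1) → L, f ≠ 0 →
      IsPtP ((algebraMap ℂ L).comp σ) I f → ¬ IsPtP ((algebraMap ℂ L).comp σ) I' f → pht ℂ f ≤ B)
    {f : Fin (N + 1) → L} (hf0 : f ≠ 0)
    (hf : IsPtP ((algebraMap ℂ L).comp σ) I f) (hf' : ¬ IsPtP ((algebraMap ℂ L).comp σ) I' f)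
    {j l : Fin (N + 1)} (hj : f j ≠ 0) (hl : f l ≠ 0) : hgt ℂ (f j / f l) ≤ 0 := by
  by_contra hcon
  push Not at hcon
  have key : ∀ m : ℕ, ∃ f' : Fin (N + 1) → L, f' ≠ 0 ∧ IsPtP ((algebraMap ℂ L).comp σ) I f' ∧
      ¬ IsPtP ((algebraMap ℂ L).comp σ) I' f' ∧ f' j ≠ 0 ∧ f' l ≠ 0 ∧
      (2 : ℤ) ^ m ≤ hgt ℂ (f' j / f' l) := by
    intro m
    induction m with
    | zero => exact ⟨f, hf0, hf, hf', hj, hl, by rw [pow_zero]; omega⟩
    | succ m ih =>
      obtain ⟨f', h0, h1, h1', h2, h3, h4⟩ := ih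
      refine ⟨fun i => φ (f' i), fun h0 => ?_, fun G hG hd => ?_, fun h5 => h1' fun G hG hd => ?_,
        (_root_.map_ne_zero φ).2 h2, (_root_.map_ne_zero φ).2 h3, ?_⟩
      · exact h2 ((map_eq_zero φ).1 (congrFun h0 j))
      · rw [eval₂_endo, h1 G hG hd, map_zero]
      · have h6 := h5 G hG hd
        rw [eval₂_endo, map_eq_zero] at h6
        exact h6
      · rw [← map_div₀, hφ, pow_succ]
        have h5 : (2 : ℤ) ≤ M := by exact_mod_cast hM
        have h6 : (0 : ℤ) < 2 ^ m := by positivity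
        nlinarith
  obtain ⟨f', h0, h1, h1', h2, h3, h4⟩ := key (B.toNat)
  have h5 := Pool.Agent.W603.CX.hgt_le_pht (k := ℂ) f' h2 h3
  have h6 := hB f' h0 h1 h1'
  have h7 : ((B.toNat : ℕ) : ℤ) < 2 ^ B.toNat := by exact_mod_cast Nat.lt_two_pow_self
  have h8 := Int.self_le_toNat B
  omega

/-- Bounded degrees imply that the nonconstant maps from curves of genus at most one lie in the
variety of `I'`. -/
theorem genusLeOne_of_bdd {σ : R →+* ℂ} {I I' : Ideal (MvPolynomial (Fin (N + 1)) R)}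
    (h : BoundedMod σ I I') : RatCurvesIn σ I I' ∧ GenusOneIn σ I I' := by
  have key : ∀ (L : Type) [Field L] [Algebra ℂ L] [IsFF ℂ L], canDeg ℂ L ≤ 0 →
      ∀ y : Fin (N + 1) → L, y ≠ 0 → IsPtP ((algebraMap ℂ L).comp σ) I y →
      IsPtP ((algebraMap ℂ L).comp σ) I' y ∨
        ∃ (v : L) (c : Fin (N + 1) → ℂ), ∀ i, y i = algebraMap ℂ L (c i) * v := by
    intro L _ _ _ hL y hy0 hy
    by_cases hy' : IsPtP ((algebraMap ℂ L).comp σ) I' y
    · exact Or.inl hy'
    right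
    obtain ⟨B, hB⟩ := h L
    obtain ⟨φ, M, hM, hφ⟩ : ∃ (φ : L →ₐ[ℂ] L) (M : ℕ), 2 ≤ M ∧
        ∀ f, hgt ℂ (φ f) = M * hgt ℂ f := by
      rcases hL.lt_or_eq with h1 | h1
      · exact exists_sq h1
      · exact exists_dup h1
    obtain ⟨l, hl⟩ := Function.ne_iff.1 hy0
    have hl' : y l ≠ 0 := hl
    have h2 : ∀ j, ∃ c : ℂ, y j / y l = algebraMap ℂ L c := by
      intro j
      by_cases hj : y j = 0
      · exact ⟨0, by rw [hj, zero_div, map_zero]⟩
      · exact const_of_hgt (const_of_bdd φ hM hφ hB hy0 hy hy' hj hl')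
    choose x hx using h2
    exact ⟨y l, x, fun i => by rw [← hx, div_mul_cancel₀ _ hl']⟩
  refine ⟨?_, fun F _ _ _ h0 y hy0 hy => key F h0.le y hy0 hy⟩
  rw [ratCurvesIn_iff]
  rintro p ⟨hz, ⟨G', hG', hGh', hne⟩, ⟨j, k, i, i', hnc⟩⟩
  have hff : IsFF ℂ (RatFunc ℂ) := ⟨Pool.Agent.Y735.LG.ess_ratFunc, Pool.Agent.Y735.LG.trdeg_ratFunc⟩
  have hcan : canDeg ℂ (RatFunc ℂ) ≤ 0 := by
    rw [Pool.Agent.W619.PQ.canDeg_rational (x := (RatFunc.X : RatFunc ℂ)) RatFunc.adjoin_X]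
    norm_num
  let y : Fin (N + 1) → RatFunc ℂ := fun j => algebraMap (Polynomial ℂ) (RatFunc ℂ) (p j)
  have hinj := FaithfulSMul.algebraMap_injective (Polynomial ℂ) (RatFunc ℂ)
  have hev : ∀ G : MvPolynomial (Fin (N + 1)) R, eval₂ ((algebraMap ℂ (RatFunc ℂ)).comp σ) y G =
      algebraMap (Polynomial ℂ) (RatFunc ℂ) (eval₂ (Polynomial.C.comp σ) p G) := by
    intro G
    have h1 : (algebraMap (Polynomial ℂ) (RatFunc ℂ)).comp (Polynomial.C.comp σ) =
        (algebraMap ℂ (RatFunc ℂ)).comp σ := RingHom.ext fun r => rfl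
    rw [← h1]
    exact (eval₂_comp_left (algebraMap (Polynomial ℂ) (RatFunc ℂ)) (Polynomial.C.comp σ) p G).symm
  have hy0 : y ≠ 0 := by
    intro h0
    have h1 : ∀ j, p j = 0 := fun j => hinj (by
      have := congrFun h0 j
      rw [map_zero]
      exact this)
    apply hnc
    rw [h1 j, h1 k]
  rcases key (RatFunc ℂ) hcan y hy0 (fun G hG hd => by rw [hev, hz G hG hd, map_zero]) with h1 | h1
  · have h2 := h1 G' hG' hGh'
    rw [hev, map_eq_zero_iff _ hinj] at h2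
    exact hne h2
  · obtain ⟨v, c, hc⟩ := h1
    apply hnc
    have h2 : Polynomial.C (c k) * p j = Polynomial.C (c j) * p k := by
      apply hinj
      rw [map_mul, map_mul]
      change algebraMap (Polynomial ℂ) (RatFunc ℂ) (Polynomial.C (c k)) * y j =
        algebraMap (Polynomial ℂ) (RatFunc ℂ) (Polynomial.C (c j)) * y k
      rw [hc j, hc k]
      change algebraMap ℂ (RatFunc ℂ) (c k) * _ = algebraMap ℂ (RatFunc ℂ) (c j) * _
      ring
    have h3 : ∀ i, c k * (p j).coeff i = c j * (p k).coeff i := fun i => by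
      have := congrArg (fun q => Polynomial.coeff q i) h2
      simpa only [Polynomial.coeff_C_mul] using this
    by_cases hk : c k = 0
    · have h4 : p k = 0 := hinj (by
        have h5 : y k = 0 := by rw [hc k, hk, map_zero, zero_mul]
        rw [map_zero]
        exact h5)
      rw [h4]
      simp
    · apply mul_left_cancel₀ hk
      linear_combination (p k).coeff i' * h3 i - (p k).coeff i * h3 i'

section main

open Pool.Agent.TH143.EL (HolMap Rep InV TrOne Ell trOne_ell TorusMapsIn ratCurves_of_torus)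
open Pool.Agent.TH143.DE (CoefField CoefRing TrLe LinRec)
open Pool.Agent.X332.TO (linRec_of_mem)
open Pool.Agent.TH143.TW (Per)
open Pool.Agent.TH143.GE (FinGen Tow1 tow1_good)
open Pool.Agent.Y719.LC (cI rat_cI ell_of_ent genusOne_of_ell)
open Pool.Agent.X332.GT (AllGT)

theorem per_of_genus {σ : R →+* ℂ} {I I' : Ideal (MvPolynomial (Fin (N + 1)) R)}
    (h : RatCurvesIn σ I I' ∧ GenusOneIn σ I I') {B : Subalgebra ℂ (ℕ → ℂ)} (hB : CoefField B)
    (hF : FinGen B) (hT : TrLe B 1) {x : ℕ → Fin (N + 1) → ℂ} (hx : ∀ᶠ m in atTop, x m ≠ 0)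
    (hxB : ∀ j, (fun m => x m j) ∈ B) (hI : ∀ᶠ m in atTop, IsPtP σ I (x m))
    (hI' : ∀ᶠ m in atTop, ¬ IsPtP σ I' (x m)) : Per x :=
  tow1_good h.1 h.2 (Tow1.base hB hF hT) x hx (fun j => linRec_of_mem hB (hxB j)) hI hI'

/-- curves of genus at most one and tori -/
theorem torus_of_genus {σ : R →+* ℂ} {I I' : Ideal (MvPolynomial (Fin (N + 1)) R)}
    (h : RatCurvesIn σ I I' ∧ GenusOneIn σ I I') : TorusMapsIn (cI σ I) (cI σ I') :=
  torus_of_fields fun _ hB hF hT _ h1 h2 h3 h4 => per_of_genus h hB hF hT h1 h2 h3 h4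

theorem genus_of_torus {σ : R →+* ℂ} {I I' : Ideal (MvPolynomial (Fin (N + 1)) R)}
    (h : TorusMapsIn (cI σ I) (cI σ I')) : RatCurvesIn σ I I' ∧ GenusOneIn σ I I' := by
  refine ⟨rat_cI.1 (ratCurves_of_torus h), genusOne_of_ell (ell_of_ent fun f hf hr hI hnc => ?_)⟩
  obtain ⟨B, hB, g, hg, hr⟩ := hr
  refine Pool.Agent.Y377.IL.iter_main h hB hf (h := g) (fun j => ?_) hr hI hnc
  have h3 := Pool.Agent.Y377.IL.IterLin.quot (hg j) B.one_mem
  have h4 : (fun z => g j z / (1 : ℂ → ℂ) z) = g j := by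
    funext z
    exact div_one _
  rwa [h4] at h3

end main

end Pool.Agent.X316.ZE
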