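import Pool.Agent.X316.ZE.TorSeq

/-!
Pointed maps from tori of dimension one.
-/

set_option autoImplicit false

open Filter Topology Set MvPolynomial

namespace Pool.Agent.X316.ZE

open scoped LinearAlgebra.Projectivization
open Pool.Agent.TH143.EL (HolMap Rep InV Ell TorusMapsIn rep_rep rep_iff rep_eq rep_eq' codis_ev
  codis_shift mero_ne holMap_ext per_int)

variable {N : ℕ}

/-- a nonconstant map from a torus omits each point outside of a discrete set -/
theorem ne_point {ω₁ ω₂ : ℂ} {f : ℂ → ℙ ℂ (Fin (N + 1) → ℂ)} (hf : HolMap f)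
    (h1 : ∀ z, f (z + ω₁) = f z) (h2 : ∀ z, f (z + ω₂) = f z) (hnc : ∃ z w, f z ≠ f w)
    (a : ℙ ℂ (Fin (N + 1) → ℂ)) : ∀ᶠ z in codiscrete ℂ, f z ≠ a := by
  obtain ⟨g, hg, hr⟩ := Pool.Agent.TH600.LK.torus_coords_ell hf h1 h2
  have hm : ∀ i j, Meromorphic fun z => g z i * a.rep j - g z j * a.rep i := fun i j =>
    ((hg i).1.mul (Meromorphic.const _)).sub ((hg j).1.mul (Meromorphic.const _))
  by_cases h : ∀ i j, ∀ᶠ z in codiscrete ℂ, g z i * a.rep j - g z j * a.rep i = 0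
  · exfalso
    obtain ⟨z1, z2, hne⟩ := hnc
    apply hne
    have h3 : ∀ᶠ z in codiscrete ℂ, ∀ i j, g z i * a.rep j - g z j * a.rep i = 0 :=
      eventually_all.2 fun i => eventually_all.2 fun j => h i j
    have h4 : ∀ z, f z = a := by
      intro z
      have hc : HolMap fun _ : ℂ => a := fun _ =>
        ⟨fun j _ => a.rep j, fun j => analyticAt_const, Eventually.of_forall fun _ => rep_rep a⟩
      refine holMap_ext hf hc ?_
      filter_upwards [codis_ev h3 z, codis_ev hr z] with y h5 h6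
      exact rep_eq' h6 (rep_rep a) fun i j => sub_eq_zero.1 (h5 i j)
    rw [h4, h4]
  · rw [not_forall] at h
    obtain ⟨i, h⟩ := h
    rw [not_forall] at h
    obtain ⟨j, hij'⟩ := h
    have h3 := mero_ne (hm i j) hij'
    filter_upwards [h3, hr] with z h4 h5 h6
    apply h4
    rw [h6] at h5
    have h7 := ((rep_iff h5).1 (rep_rep a)).2 i j
    linear_combination h7

/-- for each lattice and each point `x` outside of `V(I')` there are only finitely many holomorphic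
maps `f` from the torus to `V(I)` with `f 0 = x` -/
def PointedTori (I I' : Ideal (MvPolynomial (Fin (N + 1)) ℂ)) : Prop :=
  ∀ ω₁ ω₂ : ℂ, LinearIndependent ℝ ![ω₁, ω₂] → ∀ x : ℙ ℂ (Fin (N + 1) → ℂ), ¬ InV I' x →
    {f : ℂ → ℙ ℂ (Fin (N + 1) → ℂ) | HolMap f ∧ (∀ z, f (z + ω₁) = f z) ∧
      (∀ z, f (z + ω₂) = f z) ∧ (∀ z, InV I (f z)) ∧ f 0 = x}.Finite

theorem pointed_of_torus {I I' : Ideal (MvPolynomial (Fin (N + 1)) ℂ)} (h : TorusMapsIn I I') :
    PointedTori I I' := by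
  intro ω₁ ω₂ hω x hx
  apply (Set.finite_singleton (fun _ : ℂ => x)).subset
  rintro f ⟨hf, h1, h2, h3, h4⟩
  rw [Set.mem_singleton_iff]
  by_contra hne
  apply hx
  rw [← h4]
  refine h ω₁ ω₂ hω f hf h1 h2 h3 ?_ 0
  by_contra hc
  push Not at hc
  apply hne
  funext z
  rw [hc z 0, h4]

theorem holMap_affine {f : ℂ → ℙ ℂ (Fin (N + 1) → ℂ)} (hf : HolMap f) (c b : ℂ) :
    HolMap fun z => f (c + b * z) := by
  intro a
  obtain ⟨g, hg, hgr⟩ := hf (c + b * a)
  refine ⟨fun j z => g j (c + b * z), fun j => ?_, ?_⟩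
  · exact (hg j).fun_comp (f := fun z => c + b * z)
      (analyticAt_const.add (analyticAt_const.mul analyticAt_id))
  · have h1 : Tendsto (fun z : ℂ => c + b * z) (𝓝 a) (𝓝 (c + b * a)) :=
      (continuous_const.add (continuous_const.mul continuous_id)).tendsto a
    exact h1.eventually hgr

theorem torus_of_pointed {I I' : Ideal (MvPolynomial (Fin (N + 1)) ℂ)} (h : PointedTori I I') :
    TorusMapsIn I I' := by
  intro ω₁ ω₂ hω f hf h1 h2 hI hnc
  by_contra hcon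
  push Not at hcon
  obtain ⟨z1, hz1⟩ := hcon
  obtain ⟨x, hx⟩ : ∃ x, x = f z1 := ⟨_, rfl⟩
  rw [← hx] at hz1
  have hF := h ω₁ ω₂ hω x hz1
  have hper : ∀ ω : ℂ, (∀ z, f (z + ω) = f z) → ∀ (n : ℕ) (z : ℂ), f (z + n * ω) = f z := by
    intro ω hp n
    induction n with
    | zero => intro z; simp
    | succ n ih =>
      intro z
      have e1 : z + (n + 1 : ℕ) * ω = z + n * ω + ω := by
        push_cast
        ring
      rw [e1, hp, ih]
  let F : ℕ → ℂ → ℙ ℂ (Fin (N + 1) → ℂ) := fun n z => f (z1 + n * z)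
  have hmem : ∀ n, F n ∈ {f : ℂ → ℙ ℂ (Fin (N + 1) → ℂ) | HolMap f ∧ (∀ z, f (z + ω₁) = f z) ∧
      (∀ z, f (z + ω₂) = f z) ∧ (∀ z, InV I (f z)) ∧ f 0 = x} := by
    intro n
    refine ⟨holMap_affine hf z1 n, fun z => ?_, fun z => ?_, fun z => hI _, ?_⟩
    · change f (z1 + n * (z + ω₁)) = f (z1 + n * z)
      rw [mul_add, ← add_assoc, hper ω₁ h1]
    · change f (z1 + n * (z + ω₂)) = f (z1 + n * z)
      rw [mul_add, ← add_assoc, hper ω₂ h2]
    · change f (z1 + n * 0) = x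
      rw [mul_zero, add_zero, hx]
  have := hF.to_subtype
  obtain ⟨⟨ψ, hψ⟩, hinf⟩ := Finite.exists_infinite_fiber
    (fun n : ℕ => (⟨F n, hmem n⟩ : {f : ℂ → ℙ ℂ (Fin (N + 1) → ℂ) | HolMap f ∧
      (∀ z, f (z + ω₁) = f z) ∧ (∀ z, f (z + ω₂) = f z) ∧ (∀ z, InV I (f z)) ∧ f 0 = x}))
  have hinf' := Set.infinite_coe_iff.1 hinf
  obtain ⟨w, hw⟩ := exists_free hω
  have h3 : ∀ᶠ z in codiscrete ℂ, f (z + z1) ≠ ψ w :=
    codis_shift z1 (ne_point hf h1 h2 hnc (ψ w))
  have h4 := ev_inv hω hw (S := {z | f (z + z1) ≠ ψ w}) h3 (by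
    constructor
    · intro z
      rw [mem_ofPred_eq, mem_ofPred_eq, add_right_comm, h1]
    · intro z
      rw [mem_ofPred_eq, mem_ofPred_eq, add_right_comm, h2])
  obtain ⟨n0, hn0⟩ := eventually_atTop.1 h4
  obtain ⟨n, hn, hnn⟩ := hinf'.exists_gt n0
  have h5 : F n = ψ := congrArg Subtype.val (Set.mem_singleton_iff.1 (Set.mem_preimage.1 hn))
  apply hn0 n hnn.le
  rw [← h5]
  change f (n * w + z1) = f (z1 + n * w)
  rw [add_comm z1]

end Pool.Agent.X316.ZE
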