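import Pool.Agent.X316.ZE.Crv
import Pool.Agent.X316.ZG.Zeta
import Pool.Agent.Y377.IL.AllA

/-!
Entire curves built from elliptic functions and a jointly universal family: the statements used in
the results.
-/

set_option autoImplicit false

open Filter Topology Set MvPolynomial

namespace Pool.Agent.X316.ZE

open scoped LinearAlgebra.Projectivization
open Pool.Agent.X316.ZG
open Pool.Agent.TH143.EL (HolMap Rep InV TrOne Ell trOne_ell TorusMapsIn ratCurves_of_torus)
open Pool.Agent.TH143.HE (RatCurvesIn)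
open Pool.Agent.Y377.IL (IteratedOver AlgebraicOver db_of_trOne)

variable {N : ℕ} {ι : Type}

/-- The curve `f` is built from the elliptic functions with the periods `ω₁` and `ω₂` and the
functions `u j`: with `B` the ring of the polynomials in these elliptic functions, the functions
`u j` and all their derivatives, the curve has homogeneous coordinates in the smallest set of
meromorphic functions which contains the quotients of elements of `B` and is closed under sums,
products and meromorphic solutions of linear systems over the set, or it is algebraic over `B`. -/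
def BuiltFrom (ω₁ ω₂ : ℂ) (u : ι → ℂ → ℂ) (f : ℂ → ℙ ℂ (Fin (N + 1) → ℂ)) : Prop :=
  IteratedOver (dringB (Ell ω₁ ω₂) u) f ∨ AlgebraicOver (dringB (Ell ω₁ ω₂) u) f

/-- the entire curves which are built from elliptic functions and a jointly universal family -/
def Built (f : ℂ → ℙ ℂ (Fin (N + 1) → ℂ)) : Prop :=
  ∃ ω₁ ω₂ : ℂ, LinearIndependent ℝ ![ω₁, ω₂] ∧ ∃ (ι : Type) (u : ι → ℂ → ℂ),
    JointlyUniversal u ∧ BuiltFrom ω₁ ω₂ u f

/-- the alternative for built curves -/
theorem built_dich {I I' : Ideal (MvPolynomial (Fin (N + 1)) ℂ)}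
    (hR : RatCurvesIn (RingHom.id ℂ) I I') {f : ℂ → ℙ ℂ (Fin (N + 1) → ℂ)} (hf : HolMap f)
    (hb : Built f) (hI : ∀ z, InV I (f z)) (hnc : ∃ z w, f z ≠ f w) : (∀ z, InV I' (f z)) ∨
      ∃ ω₁ ω₂ : ℂ, LinearIndependent ℝ ![ω₁, ω₂] ∧ (∀ z, f (z + ω₁) = f z) ∧
        ∀ z, f (z + ω₂) = f z := by
  obtain ⟨ω₁, ω₂, hind, ι, u, hu, h | h⟩ := hb
  · exact strongE hind hu hR hf h hI hnc
  · exact strongE hind hu hR hf (iterated_alg (db_of_trOne (trOne_ell hind)) hu.mero hf h) hI hnc

/-- built curves are contained in every algebraic set which contains the tori -/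
theorem built_torus {I I' : Ideal (MvPolynomial (Fin (N + 1)) ℂ)} (hT : TorusMapsIn I I')
    {f : ℂ → ℙ ℂ (Fin (N + 1) → ℂ)} (hf : HolMap f) (hb : Built f) (hI : ∀ z, InV I (f z))
    (hnc : ∃ z w, f z ≠ f w) : ∀ z, InV I' (f z) := by
  rcases built_dich (ratCurves_of_torus hT) hf hb hI hnc with h | ⟨ω₁, ω₂, hind, h1, h2⟩
  · exact h
  · exact hT ω₁ ω₂ hind f hf h1 h2 hI hnc

end Pool.Agent.X316.ZE
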