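import Pool.Agent.X316.ZE.Pub
import Pool.Agent.X316.ZG.Log5
import Pool.Agent.Y189.DD.Final
import Pool.Agent.X332.GT.Seqs

/-!
Subvarieties of general type and maps from complex tori.
-/

set_option autoImplicit false

open Filter Topology Set MvPolynomial

namespace Pool.Agent.X316.ZE

open scoped LinearAlgebra.Projectivization
open Pool.Agent.X316.ZG
open Pool.Agent.TH143.EL (HolMap Rep InV TrOne Ell trOne_ell TorusMapsIn ratCurves_of_torus inV_iff
  rep_rep)
open Pool.Agent.TH143.HE (RatCurvesIn IsPtP)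
open Pool.Agent.TH143.GT (FunField)
open Pool.Agent.W602.GT (IsForm GeneralType coords)
open Pool.Agent.X332.GT (AllGT)

variable {N : ℕ}

theorem isPtP_val {F : Type} [Field F] [Algebra ℂ F] {J : Ideal (MvPolynomial (Fin (N + 1)) ℂ)}
    {y : Fin (N + 1) → F} : IsPtP ((algebraMap ℂ F).comp (RingHom.id ℂ)) J y ↔
      ∀ G ∈ J, IsForm G → Pool.Agent.W602.GT.val y G = 0 := by
  rw [RingHom.comp_id]
  exact Iff.rfl

/-- If all subvarieties of positive dimension of `V(I)` which are not contained in `V(I')` are of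
general type, then `V(I')` contains the images of the tori of dimension one. -/
theorem torus_of_allGT {I I' : Ideal (MvPolynomial (Fin (N + 1)) ℂ)}
    (h : AllGT (RingHom.id ℂ) I I') : TorusMapsIn I I' := by
  intro ω₁ ω₂ hω t ht h1 h2 hI hnc
  by_contra hcon
  obtain ⟨K, i1, i2, w, y, hy0, hgen, htr, hval, hw0⟩ := closure_fun ht
  have hw : 0 < w := by
    rcases Nat.eq_zero_or_pos w with h3 | h3
    · obtain ⟨z, z', hz⟩ := hnc
      exact absurd (hw0 h3 z z') hz
    · exact h3
  let p : Ideal (MvPolynomial (Fin (N + 1)) ℂ) :=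
    Ideal.span {G | IsForm G ∧ Pool.Agent.W602.GT.val y G = 0}
  have hp : ∀ G ∈ p, Pool.Agent.W602.GT.val y G = 0 := by
    intro G hG
    have h3 : p ≤ RingHom.ker (aeval y : MvPolynomial (Fin (N + 1)) ℂ →ₐ[ℂ] K) := by
      change Ideal.span _ ≤ _
      rw [Ideal.span_le]
      intro G hG
      exact hG.2
    exact h3 hG
  have hfun : FunField p 1 K w y := by
    refine ⟨⟨hy0, hp, ?_, hgen, htr⟩, fun G hG h0 => Ideal.subset_span ⟨hG, h0⟩⟩
    unfold Pool.Agent.W602.GT.val
    rw [map_one]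
    exact one_ne_zero
  have hIp : ∀ z, InV p (t z) := fun z G hG hGh => (hval G hGh).1 (hp G hG) z
  have hd : Pool.Agent.Y377.IL.Dense p t := fun G hG h0 =>
    Ideal.subset_span ⟨hG, (hval G hG).2 h0⟩
  refine Pool.Agent.Y189.DD.torus_not_gt hfun ht hIp hd hω h1 h2 hw ?_
  refine h K w y hw htr hy0 hgen ?_ ?_
  · rw [isPtP_val]
    intro G hG hGh
    exact (hval G hGh).2 fun z => hI z G hG hGh
  · rw [isPtP_val]
    intro h3
    apply hcon
    intro z G hG hGh
    exact (hval G hGh).1 (h3 G hG hGh) z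

end Pool.Agent.X316.ZE
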