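import Pool.Agent.X316.ZE.Ring
import Pool.Agent.X316.ZG.Str
import Pool.Agent.TH143.EL.Wp

/-!
Entire curves given by iterated linear differential equations over elliptic functions and the
derivatives of a jointly universal family.
-/

set_option autoImplicit false

open Filter Topology Set MvPolynomial

namespace Pool.Agent.X316.ZE

open scoped LinearAlgebra.Projectivization
open Pool.Agent.X316.ZG
open Pool.Agent.TH143.EL (HolMap Rep InV codis_ev codis_nhds mero_an inV_of_punct inV_iff TrOne NC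
  nc_poly Ell trOne_ell nc_wp mero_poly mero_ne rep_rep)
open Pool.Agent.TH143.GT (Covered FunField Pluricanonical exists_frac)
open Pool.Agent.TH143.HE (RatCurvesIn)
open Pool.Agent.Y377.IL (DB IteratedOver AlgebraicOver AlgRatio algI mem_algI form_scale
  prop_of_wronskian db_of_trOne)

variable {N : ℕ} {ι : Type}

theorem mem_algI_of_trans {S R : Subalgebra ℂ Mf} (hS : ∀ x ∈ S, IsAlgebraic R x) {x : Mf}
    (hx : IsAlgebraic S x) : IsAlgebraic R x := by
  -- pass to the join
  have h1 : R ≤ R ⊔ S := le_sup_left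
  refine Pool.Agent.Y377.EL.alg_trans h1 (fun y hy => ?_)
    (Pool.Agent.Y377.EL.alg_mono le_sup_right hx)
  have h2 : R ⊔ S ≤ (algI R).toSubalgebra := by
    rw [sup_le_iff]
    refine ⟨fun y hy => ?_, fun y hy => ?_⟩
    · exact mem_algI.2 (isAlgebraic_algebraMap (⟨y, hy⟩ : R))
    · exact mem_algI.2 (hS y hy)
  exact mem_algI.1 (h2 hy)

/-- the elements of `SS` are algebraic over a doubly periodic function and the derivatives -/
theorem alg_SS {B₀ : Subalgebra ℂ (ℂ → ℂ)} (hB : TrOne B₀) {e : ℂ → ℂ} (heB : e ∈ B₀)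
    (he : Meromorphic e) (hnc : NC e) {u : ι → ℂ → ℂ} (hu : ∀ j, Meromorphic (u j))
    (T : Finset (ι × ℕ)) {x : Mf} (hx : IsAlgebraic (SS B₀ hu T) x) :
    IsAlgebraic (Algebra.adjoin ℂ (insert (cl e he) (xc hu '' (T : Set (ι × ℕ)))) :
      Subalgebra ℂ Mf) x := by
  refine mem_algI_of_trans (fun y hy => ?_) hx
  have h2 : SS B₀ hu T ≤ (algI (Algebra.adjoin ℂ (insert (cl e he)
      (xc hu '' (T : Set (ι × ℕ)))) : Subalgebra ℂ Mf)).toSubalgebra := by
    unfold SS
    rw [Algebra.adjoin_le_iff]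
    rintro y (⟨g, hg, hgm, rfl⟩ | hy)
    · refine mem_algI.2 (Pool.Agent.Y377.EL.alg_mono (Algebra.adjoin_mono ?_)
        (alg_trOne hB heB he hnc hg hgm))
      exact Set.singleton_subset_iff.2 (Set.mem_insert _ _)
    · exact mem_algI.2 (isAlgebraic_algebraMap (⟨y, Algebra.subset_adjoin
        (Set.mem_insert_of_mem _ hy)⟩ : (Algebra.adjoin ℂ (insert (cl e he)
          (xc hu '' (T : Set (ι × ℕ)))) : Subalgebra ℂ Mf)))
  exact mem_algI.1 (h2 hy)

/-- functions which are algebraic over `ℂ[e]` satisfy polynomial relations over `B₀` -/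
theorem ratio_of_alg {B₀ : Subalgebra ℂ (ℂ → ℂ)} {e : ℂ → ℂ} (heB : e ∈ B₀)
    (he : Meromorphic e) (hnc : NC e) {a b : ℂ → ℂ} (ha : Meromorphic a) (hb : Meromorphic b)
    (hb0 : cl b hb ≠ 0)
    (h : IsAlgebraic (Algebra.adjoin ℂ {cl e he} : Subalgebra ℂ Mf) (cl a ha / cl b hb)) :
    AlgRatio B₀ a b := by
  classical
  let θ : Polynomial ℂ →ₐ[ℂ] Mf := Polynomial.aeval (cl e he)
  obtain ⟨Q, hQ0, hQ⟩ := alg_lift θ (by
    rw [Algebra.adjoin_le_iff, Set.singleton_subset_iff]
    exact ⟨Polynomial.X, Polynomial.aeval_X _⟩) h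
  have hcm : ∀ k, Meromorphic fun z => (Q.coeff k).eval (e z) := fun k => mero_poly he _
  have hθ : ∀ k, θ (Q.coeff k) = cl _ (hcm k) := by
    intro k
    have h1 : θ (Q.coeff k) =
        Ideal.Quotient.mk nullI (Polynomial.aeval (⟨e, he⟩ : merS) (Q.coeff k)) :=
      (Polynomial.aeval_algHom_apply (Ideal.Quotient.mkₐ ℂ nullI) (⟨e, he⟩ : merS) _)
    rw [h1]
    refine cl_eq (Eventually.of_forall fun z => ?_)
    have h2 : evz z (Polynomial.aeval (⟨e, he⟩ : merS) (Q.coeff k)) = (Q.coeff k).eval (e z) := by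
      rw [← Polynomial.aeval_algHom_apply]
      rfl
    exact h2
  refine ⟨Q.natDegree, fun k z => (Q.coeff k).eval (e z), fun k => ?_,
    ⟨Q.natDegree, le_rfl, fun h1 => ?_⟩, ?_⟩
  · -- polynomials in `e`
    have h1 : (fun z => (Q.coeff k).eval (e z)) = Polynomial.aeval e (Q.coeff k) := by
      funext z
      have h2 := Polynomial.aeval_algHom_apply (Pi.evalAlgHom ℂ (fun _ : ℂ => ℂ) z) e (Q.coeff k)
      rw [Pi.evalAlgHom_apply, Pi.evalAlgHom_apply] at h2
      rw [← h2, Polynomial.coe_aeval_eq_eval]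
    change (fun z => (Q.coeff k).eval (e z)) ∈ B₀
    rw [h1]
    exact (Algebra.adjoin_le_iff (S := B₀) |>.2 (Set.singleton_subset_iff.2 heB))
      (Polynomial.aeval_mem_adjoin_singleton _ _)
  · have h2 := nc_poly he hnc h1
    rw [Polynomial.coeff_natDegree, Polynomial.leadingCoeff_eq_zero] at h2
    exact hQ0 h2
  · have h1 : ∑ k ∈ Finset.range (Q.natDegree + 1), cl _ (hcm k) * cl a ha ^ k *
        cl b hb ^ (Q.natDegree - k) = 0 := by
      have h2 : (Q.eval₂ θ.toRingHom (cl a ha / cl b hb)) * cl b hb ^ Q.natDegree = 0 := by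
        rw [hQ, zero_mul]
      rw [Polynomial.eval₂_eq_sum_range, Finset.sum_mul] at h2
      rw [← h2]
      refine Finset.sum_congr rfl fun k hk => ?_
      have hk' : k ≤ Q.natDegree := by
        have := Finset.mem_range.1 hk
        omega
      rw [← hθ]
      have h6 : cl b hb ^ Q.natDegree = cl b hb ^ k * cl b hb ^ (Q.natDegree - k) := by
        rw [← pow_add, Nat.add_sub_cancel' hk']
      rw [h6, div_pow]
      have h7 : cl b hb ^ k ≠ 0 := pow_ne_zero _ hb0
      change θ (Q.coeff k) * cl a ha ^ k * cl b hb ^ (Q.natDegree - k) = θ (Q.coeff k) * _ * _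
      field_simp
    have h2 : ∑ k ∈ Finset.range (Q.natDegree + 1), cl _ (hcm k) * cl a ha ^ k *
        cl b hb ^ (Q.natDegree - k) = Ideal.Quotient.mk nullI
          (∑ k ∈ Finset.range (Q.natDegree + 1),
          (⟨_, hcm k⟩ : merS) * ⟨a, ha⟩ ^ k * ⟨b, hb⟩ ^ (Q.natDegree - k)) := by
      rw [map_sum]
      refine Finset.sum_congr rfl fun k _ => ?_
      rw [map_mul, map_mul, map_pow, map_pow]
      rfl
    rw [h2, Ideal.Quotient.eq_zero_iff_mem, mem_nullI] at h1
    filter_upwards [h1] with z hz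
    have h3 : evz z (∑ k ∈ Finset.range (Q.natDegree + 1), (⟨_, hcm k⟩ : merS) * ⟨a, ha⟩ ^ k *
        ⟨b, hb⟩ ^ (Q.natDegree - k)) = 0 := hz
    rw [map_sum] at h3
    rw [← h3]
    refine Finset.sum_congr rfl fun k _ => ?_
    rw [map_mul, map_mul, map_pow, map_pow]
    rfl

/-- The base: a ring of meromorphic functions of transcendence degree one with a nonconstant
function all whose translates are bounded translates. -/
structure Base (B₀ : Subalgebra ℂ (ℂ → ℂ)) : Prop where
  tr : TrOne B₀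
  ex : ∃ e ∈ B₀, NC e ∧ CoBdd e

theorem base_ell {ω₁ ω₂ : ℂ} (hind : LinearIndependent ℝ ![ω₁, ω₂]) : Base (Ell ω₁ ω₂) where
  tr := trOne_ell hind
  ex := by
    let L : PeriodPair := ⟨ω₁, ω₂, hind⟩
    have h1 : ∀ z, L.weierstrassP (z + ω₁) = L.weierstrassP z := fun z =>
      L.weierstrassP_add_coe z ⟨ω₁, L.ω₁_mem_lattice⟩
    have h2 : ∀ z, L.weierstrassP (z + ω₂) = L.weierstrassP z := fun z =>
      L.weierstrassP_add_coe z ⟨ω₂, L.ω₂_mem_lattice⟩
    exact ⟨L.weierstrassP, ⟨L.meromorphic_weierstrassP, h1, h2⟩, nc_wp L,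
      coBdd_of_periodic hind h1 h2⟩

theorem NC.ne {e : ℂ → ℂ} (he : Meromorphic e) (hnc : NC e) (b : ℂ) :
    ∀ᶠ z in codiscrete ℂ, e z ≠ b := by
  have h1 : Meromorphic fun z => e z - b := he.sub (Meromorphic.const b)
  have h2 := mero_ne h1 fun h3 => hnc ⟨b, h3.mono fun z hz => sub_eq_zero.1 hz⟩
  exact h2.mono fun z hz h3 => hz (by rw [h3, sub_self])

/-- **The alternative.** A curve in `V(I)` lies in every algebraic set which contains all rational
curves in `V(I)`, or it is algebraic over the base ring. -/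
theorem strongB {B₀ : Subalgebra ℂ (ℂ → ℂ)} (hB₀ : Base B₀) {u : ι → ℂ → ℂ}
    (hu : JointlyUniversal u)
    {I I' : Ideal (MvPolynomial (Fin (N + 1)) ℂ)} (hR : RatCurvesIn (RingHom.id ℂ) I I')
    {f : ℂ → ℙ ℂ (Fin (N + 1) → ℂ)} (hf : HolMap f) (hl : IteratedOver (dringB B₀ u) f)
    (hI : ∀ z, InV I (f z)) : (∀ z, InV I' (f z)) ∨ AlgebraicOver B₀ f := by
  classical
  have hB := db_dringB (db_of_trOne hB₀.tr) hu.mero
  obtain ⟨e, heB, hnc, hco⟩ := hB₀.ex
  have he : Meromorphic e := hB₀.tr.mero e heB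
  rcases Pool.Agent.Y377.IL.dich_gen hR hB hf hl hI with h1 | h1
  · exact Or.inl h1
  obtain ⟨h, hl, hr⟩ := hl
  have hm : ∀ j, Meromorphic (h j) := fun j => (hl j).mero hB
  have hrat : ∀ i j, AlgRatio (dringB B₀ u) (h i) (h j) := by
    intro i j
    refine Pool.Agent.Y377.IL.algRatio_scale ?_ (h1 i j)
    filter_upwards [hr] with z h2
    obtain ⟨hv, h3⟩ := h2
    obtain ⟨a, ha⟩ := Projectivization.exists_smul_eq_mk_rep ℂ _ hv
    have h4 : ∀ k, (f z).rep k = (a : ℂ) * h k z := by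
      intro k
      rw [h3, ← ha]
      rfl
    refine ⟨(a : ℂ)⁻¹, ?_, ?_⟩
    · rw [h4, inv_mul_cancel_left₀ a.ne_zero]
    · rw [h4, inv_mul_cancel_left₀ a.ne_zero]
  obtain ⟨l, hl0⟩ : ∃ l, ¬ ∀ᶠ z in codiscrete ℂ, h l z = 0 := by
    by_contra hcon
    push Not at hcon
    obtain ⟨z, h4, h5⟩ := (hr.and (eventually_all.2 hcon)).exists
    obtain ⟨h6, -⟩ := h4
    exact h6 (funext h5)
  let Y : Fin (N + 1) → Mf := fun j => cl (h j) (hm j)
  have hYl : Y l ≠ 0 := fun h4 => hl0 (cl_zero.1 h4)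
  let E : IntermediateField ℂ Mf :=
    IntermediateField.adjoin ℂ (Set.range fun j => Y j / Y l)
  let y : Fin (N + 1) → E := fun j =>
    ⟨Y j / Y l, IntermediateField.subset_adjoin _ _ ⟨j, rfl⟩⟩
  have hyl : y l = 1 := Subtype.ext (div_self hYl)
  have htop : IntermediateField.adjoin ℂ (Set.range y) = (⊤ : IntermediateField ℂ E) := by
    have h2 : (IntermediateField.adjoin ℂ (Set.range y)).map E.val =
        (⊤ : IntermediateField ℂ E).map E.val := by
      rw [IntermediateField.adjoin_map, ← AlgHom.fieldRange_eq_map, IntermediateField.fieldRange_val,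
        ← Set.range_comp]
      rfl
    exact IntermediateField.map_injective E.val h2
  -- algebraicity
  have halg : ∀ j, ∃ T : Finset (ι × ℕ),
      IsAlgebraic (Algebra.adjoin ℂ (insert (cl e he) (xc hu.mero '' (T : Set (ι × ℕ)))) :
        Subalgebra ℂ Mf) (E.val (y j)) := by
    intro j
    obtain ⟨T, hT⟩ := alg_of_ratioB (db_of_trOne hB₀.tr) hu.mero (hm j) (hm l) hYl (hrat j l)
    exact ⟨T, alg_SS hB₀.tr heB he hnc hu.mero T hT⟩
  choose Te hTe using halg
  let T : Finset (ι × ℕ) := Finset.univ.biUnion Te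
  have hall : ∀ x : E,
      IsAlgebraic (Algebra.adjoin ℂ (insert (cl e he) (xc hu.mero '' (T : Set (ι × ℕ)))) :
        Subalgebra ℂ Mf) (E.val x) := by
    intro x
    have h4 : (⊤ : IntermediateField ℂ E) ≤ (algI (Algebra.adjoin ℂ (insert (cl e he)
        (xc hu.mero '' (T : Set (ι × ℕ)))) : Subalgebra ℂ Mf)).comap E.val := by
      rw [← htop, IntermediateField.adjoin_le_iff]
      rintro _ ⟨j, rfl⟩
      change E.val (y j) ∈ algI _
      rw [mem_algI]
      have h5 : (Algebra.adjoin ℂ (insert (cl e he) (xc hu.mero '' (Te j : Set (ι × ℕ)))) :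
          Subalgebra ℂ Mf) ≤
          Algebra.adjoin ℂ (insert (cl e he) (xc hu.mero '' (T : Set (ι × ℕ)))) := by
        apply Algebra.adjoin_mono
        apply Set.insert_subset_insert
        apply Set.image_mono
        intro v hv
        exact Finset.mem_coe.2 (Finset.mem_biUnion.2 ⟨j, Finset.mem_univ j, hv⟩)
      exact Pool.Agent.Y377.EL.alg_mono h5 (hTe j)
    exact h4 (IntermediateField.mem_top (x := x))
  have hfg : (⊤ : IntermediateField ℂ E).FG := by
    rw [← htop]
    exact IntermediateField.fg_adjoin_of_finite (Set.finite_range y)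
  -- values of forms
  have hval : ∀ (G : MvPolynomial (Fin (N + 1)) ℂ), (∃ d, G.IsHomogeneous d) →
      (aeval y G = 0 ↔ ∀ᶠ z in codiscrete ℂ, eval (fun j => h j z) G = 0) := by
    rintro G ⟨d, hG⟩
    rw [← aeval_cl_zero h hm G]
    have e4 : aeval Y G = Y l ^ d * aeval (fun j => Y j / Y l) G := by
      rw [← form_scale hG]
      congr 2
      funext j
      rw [mul_div_cancel₀ _ hYl]
    have e5 : ((aeval y G : E) : Mf) = aeval (fun j => Y j / Y l) G :=
      MvPolynomial.comp_aeval_apply (f := y) E.val G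
    change _ ↔ aeval Y G = 0
    rw [e4, mul_eq_zero, or_iff_right (pow_ne_zero _ hYl), ← e5]
    exact Subtype.ext_iff
  rcases fields hu he hco (NC.ne he hnc) E.val hfg T.card T rfl hall with
    ⟨M, i1, i2, φ, r, hr'⟩ | halgC
  · left
    intro z G' hG' hG'h
    refine form_all hf hr hG'h ?_ z
    rw [← hval G' hG'h]
    refine rc_cov φ (I := I) hG'h (Pool.Agent.Y377.IL.cur_of_rat hR hG' hG'h) hyl ?_ ?_
    · by_contra hcon
      push Not at hcon
      have h5 : (⊤ : IntermediateField ℂ E) ≤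
          (IsScalarTower.toAlgHom ℂ M (RatFunc M)).fieldRange.comap φ := by
        rw [← htop, IntermediateField.adjoin_le_iff]
        rintro _ ⟨j, rfl⟩
        obtain ⟨c, hc⟩ := hcon j
        exact ⟨c, hc.symm⟩
      obtain ⟨c, hc⟩ := h5 (IntermediateField.mem_top (x := r))
      exact hr' c hc.symm
    · intro G hG hGh
      rw [hval G hGh]
      filter_upwards [hr] with z hz
      exact (inV_iff hz).1 (hI z) G hG hGh
  · right
    -- the ratios are algebraic over `ℂ[e]`
    have key : ∀ i j, AlgRatio B₀ (h i) (h j) := by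
      intro i j
      by_cases hj : Y j = 0
      · have hj0 : ∀ᶠ z in codiscrete ℂ, h j z = 0 := cl_zero.1 hj
        refine ⟨1, fun k _ => if k = 0 then 1 else 0, fun k => ?_, ⟨0, by omega, fun h4 => ?_⟩, ?_⟩
        · by_cases hk : k = 0
          · simp only [hk, if_true]
            exact B₀.one_mem
          · simp only [hk, if_false]
            exact B₀.zero_mem
        · obtain ⟨z, hz⟩ := h4.exists
          simp at hz
        · filter_upwards [hj0] with z hz
          simp [hz]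
      · refine ratio_of_alg heB he hnc (hm i) (hm j) hj ?_
        have h4 := halgC (y i / y j)
        have h5 : E.val (y i / y j) = cl (h i) (hm i) / cl (h j) (hm j) := by
          rw [map_div₀]
          change (Y i / Y l) / (Y j / Y l) = Y i / Y j
          field_simp
        rwa [h5] at h4
    intro i j
    refine Pool.Agent.Y377.IL.algRatio_scale ?_ (key i j)
    filter_upwards [hr] with z h2
    obtain ⟨hv, h3⟩ := h2
    obtain ⟨a, ha⟩ := Projectivization.exists_smul_eq_mk_rep ℂ _ hv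
    have h4 : ∀ k, (f z).rep k = (a : ℂ) * h k z := by
      intro k
      rw [h3, ← ha]
      rfl
    exact ⟨(a : ℂ), h4 i, h4 j⟩

/-- **The strong form.** A curve in `V(I)` lies in every algebraic set which contains all rational
curves in `V(I)`, or it factors through a complex torus, or it is constant. -/
theorem strongE {ω₁ ω₂ : ℂ} (hind : LinearIndependent ℝ ![ω₁, ω₂]) {u : ι → ℂ → ℂ}
    (hu : JointlyUniversal u)
    {I I' : Ideal (MvPolynomial (Fin (N + 1)) ℂ)} (hR : RatCurvesIn (RingHom.id ℂ) I I')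
    {f : ℂ → ℙ ℂ (Fin (N + 1) → ℂ)} (hf : HolMap f)
    (hl : IteratedOver (dringB (Ell ω₁ ω₂) u) f)
    (hI : ∀ z, InV I (f z)) (hnc : ∃ z w, f z ≠ f w) : (∀ z, InV I' (f z)) ∨
      ∃ ω₁ ω₂ : ℂ, LinearIndependent ℝ ![ω₁, ω₂] ∧ (∀ z, f (z + ω₁) = f z) ∧
        ∀ z, f (z + ω₂) = f z := by
  rcases strongB (base_ell hind) hu hR hf hl hI with h1 | h1
  · exact Or.inl h1
  · obtain ⟨h, h2, h3⟩ := Pool.Agent.Y377.IL.iterated_of_algebraic
      (db_of_trOne (trOne_ell hind)) hf h1
    exact Pool.Agent.Y377.IL.dich hR (trOne_ell hind) hf h2 h3 hI hnc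

/-- curves which are algebraic over the ring -/
theorem iterated_alg {B₀ : Subalgebra ℂ (ℂ → ℂ)} (hB₀ : DB B₀) {u : ι → ℂ → ℂ}
    (hu : ∀ j, Meromorphic (u j)) {f : ℂ → ℙ ℂ (Fin (N + 1) → ℂ)} (hf : HolMap f)
    (ha : AlgebraicOver (dringB B₀ u) f) : IteratedOver (dringB B₀ u) f :=
  Pool.Agent.Y377.IL.iterated_of_algebraic (db_dringB hB₀ hu) hf ha

end Pool.Agent.X316.ZE
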