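import Pool.Agent.X316.ZE.Seq
import Pool.Agent.X316.ZG.Cur

/-!
Fields of meromorphic functions which are algebraic over the derivatives of a jointly universal
family and a doubly periodic function.
-/

set_option autoImplicit false

open Filter Topology Metric Set Polynomial

namespace Pool.Agent.X316.ZE

open Pool.Agent.X316.ZG

variable {ι : Type} {T : Finset (ι × ℕ)} {j0 : ι} {m : ℕ}

theorem eval_option {τ : Type} (a : τ → ℂ) (b : ℂ) (r : MvPolynomial (Option τ) ℂ) :
    MvPolynomial.eval (fun v => Option.elim v b a) r =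
      ((MvPolynomial.optionEquivLeft ℂ τ r).map (MvPolynomial.eval a)).eval b := by
  have h1 : (MvPolynomial.aeval (fun v => Option.elim v b a) : MvPolynomial (Option τ) ℂ →ₐ[ℂ] ℂ) =
      ((Polynomial.aeval b).comp (Polynomial.mapAlgHom (MvPolynomial.aeval a))).comp
        (MvPolynomial.optionEquivLeft ℂ τ).toAlgHom := by
    apply MvPolynomial.algHom_ext
    intro v
    rcases v with _ | v
    · simp
    · simp
  have h2 := DFunLike.congr_fun h1 r
  rw [MvPolynomial.aeval_eq_eval] at h2
  rw [h2]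
  simp only [AlgHom.comp_apply]
  rw [← Polynomial.coe_aeval_eq_eval]
  rfl

theorem good {u : ι → ℂ → ℂ} (hu : JointlyUniversal u) (hT : ∀ v ∈ T, v.1 = j0 → v.2 < m)
    {e : ℂ → ℂ} (he : Meromorphic e) (hper : CoBdd e)
    (hF : ∀ b, ∀ᶠ z in codiscrete ℂ, e z ≠ b) :
    Good (fam e u T) (iteratedDeriv m (u j0)) := by
  classical
  intro r hr
  have hρ : MvPolynomial.optionEquivLeft ℂ T r ≠ 0 := by
    rw [Ne, EmbeddingLike.map_eq_zero_iff]
    exact hr
  obtain ⟨i, hi⟩ : ∃ i, (MvPolynomial.optionEquivLeft ℂ T r).coeff i ≠ 0 := by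
    by_contra hcon
    push Not at hcon
    exact hρ (Polynomial.ext hcon)
  have hprod : (MvPolynomial.optionEquivLeft ℂ T r).coeff i *
      ∏ v : T, (MvPolynomial.X v : MvPolynomial T ℂ) ≠ 0 :=
    mul_ne_zero hi (Finset.prod_ne_zero_iff.2 fun v _ => MvPolynomial.X_ne_zero v)
  obtain ⟨a, ha⟩ : ∃ a : T → ℂ, MvPolynomial.eval a
      ((MvPolynomial.optionEquivLeft ℂ T r).coeff i * ∏ v : T, MvPolynomial.X v) ≠ 0 := by
    by_contra hcon
    push Not at hcon
    exact hprod (MvPolynomial.funext fun a => by rw [hcon a, map_zero])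
  rw [map_mul, map_prod] at ha
  simp only [MvPolynomial.eval_X] at ha
  have h3 := right_ne_zero_of_mul ha
  rw [Finset.prod_ne_zero_iff] at h3
  have hP : (MvPolynomial.optionEquivLeft ℂ T r).map (MvPolynomial.eval a) ≠ 0 := by
    intro h0
    apply left_ne_zero_of_mul ha
    have := congrArg (fun P => P.coeff i) h0
    simpa only [Polynomial.coeff_map, Polynomial.coeff_zero] using this
  obtain ⟨b, hb, hL⟩ := exists_lim hu hT he hper
    (F := ((MvPolynomial.optionEquivLeft ℂ T r).map (MvPolynomial.eval a)).roots.toFinset)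
    (fun b _ => hF b) a (fun v _ => h3 v (Finset.mem_univ v))
  refine ⟨_, ?_, hL⟩
  rw [eval_option]
  intro h0
  apply hb
  rw [Multiset.mem_toFinset, Polynomial.mem_roots hP]
  exact h0

/-- **The main theorem on fields.** A finitely generated field of meromorphic functions which are
algebraic over a doubly periodic function `e` and the derivatives of a jointly universal family
is algebraic over `ℂ[e]`, or it is covered by rational curves. -/
theorem fields {u : ι → ℂ → ℂ} (hu : JointlyUniversal u)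
    {e : ℂ → ℂ} (he : Meromorphic e) (hper : CoBdd e)
    (hF : ∀ b, ∀ᶠ z in codiscrete ℂ, e z ≠ b) {E : Type} [Field E] [Algebra ℂ E]
    (ψ : E →ₐ[ℂ] Mf) (hfg : (⊤ : IntermediateField ℂ E).FG) :
    ∀ (n : ℕ) (T : Finset (ι × ℕ)), T.card = n →
    (∀ x, IsAlgebraic (Algebra.adjoin ℂ (insert (cl e he) (xc hu.mero '' (T : Set (ι × ℕ)))) :
      Subalgebra ℂ Mf) (ψ x)) →
    (∃ (M : Type) (_ : Field M) (_ : Algebra ℂ M) (φ : E →ₐ[ℂ] RatFunc M),
      ∃ r : E, ∀ c : M, φ r ≠ algebraMap M (RatFunc M) c) ∨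
      ∀ x : E, IsAlgebraic (Algebra.adjoin ℂ {cl e he} : Subalgebra ℂ Mf) (ψ x) := by
  classical
  intro n
  induction n with
  | zero =>
    intro T hT h
    right
    intro x
    rw [Finset.card_eq_zero] at hT
    subst hT
    have h1 := h x
    rw [Finset.coe_empty, image_empty, insert_empty_eq] at h1
    exact h1
  | succ n ih =>
    intro T hT h
    have hne : T.Nonempty := by
      rw [← Finset.card_pos]
      omega
    obtain ⟨v1, hv1⟩ := hne
    -- the last derivative
    obtain ⟨v0, hv0, hmax⟩ := Finset.exists_max_image (T.filter fun v => v.1 = v1.1)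
      (fun v => v.2) ⟨v1, Finset.mem_filter.2 ⟨hv1, rfl⟩⟩
    rw [Finset.mem_filter] at hv0
    obtain ⟨hv0T, hv01⟩ := hv0
    let T' := T.erase v0
    have hT'c : T'.card = n := by
      rw [Finset.card_erase_of_mem hv0T, hT]
      rfl
    have hT' : ∀ v ∈ T', v.1 = v0.1 → v.2 < v0.2 := by
      intro v hv hv'
      rw [Finset.mem_erase] at hv
      have h1 := hmax v (Finset.mem_filter.2 ⟨hv.2, hv'.trans hv01⟩)
      refine lt_of_le_of_ne h1 fun h2 => hv.1 ?_
      exact Prod.ext hv' h2
    have hgood := good hu hT' he hper hF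
    have hx : ∀ v, Meromorphic (fam e u T' v) := fun v => by
      rcases v with _ | v
      · exact he
      · exact meromorphic_iteratedDeriv (hu.mero v.1.1) v.1.2
    have hx0 : Meromorphic (iteratedDeriv v0.2 (u v0.1)) :=
      meromorphic_iteratedDeriv (hu.mero v0.1) v0.2
    let θ := toMf (fam e u T') hx (iteratedDeriv v0.2 (u v0.1)) hx0
    have hθC : ∀ v, θ (Polynomial.C (MvPolynomial.X v)) = cl (fam e u T' v) (hx v) := by
      intro v
      simp only [θ, toMf, AlgHom.comp_apply]
      rw [toMer_C, MvPolynomial.aeval_X]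
      rfl
    have hθX : θ Polynomial.X = cl _ hx0 := by
      simp only [θ, toMf, AlgHom.comp_apply]
      rw [toMer_X]
      rfl
    have hθi : Function.Injective θ := by
      rw [injective_iff_map_eq_zero]
      intro P hP
      exact key_indep hgood ((toMf_zero _ _ _ _).1 hP)
    have halg : ∀ x, ∃ Q : (MvPolynomial (Option T') ℂ)[X][X], Q ≠ 0 ∧
        Q.eval₂ θ.toRingHom (ψ x) = 0 := by
      intro x
      refine alg_lift θ ?_ (h x)
      rw [Algebra.adjoin_le_iff]
      rintro y hy
      rcases mem_insert_iff.1 hy with rfl | ⟨v, hv, rfl⟩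
      · exact ⟨_, hθC none⟩
      · by_cases hvv : v = v0
        · subst hvv
          exact ⟨Polynomial.X, hθX⟩
        · exact ⟨_, hθC (some ⟨v, Finset.mem_erase.2 ⟨hvv, hv⟩⟩)⟩
    have hKP : ∀ (Φ : (MvPolynomial (Option T') ℂ)[X][X]) (β : Mf), Φ.Monic →
        Φ.eval₂ θ.toRingHom β = 0 → ∃ N B : ℕ, 0 < N ∧
        ∀ r : MvPolynomial (Option T') ℂ, r ≠ 0 → ∃ a : MvPolynomial (Option T') ℂ →+* ℂ, a r ≠ 0 ∧
          ∃ G : ℂ[X], G.natDegree ≤ B ∧ sp Φ a N G = 0 := by
      intro Φ β hΦ hβ
      obtain ⟨⟨w, hw⟩, rfl⟩ := Ideal.Quotient.mk_surjective β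
      refine ⟨Φ.natDegree.factorial, Φ.natDegree.factorial * dg Φ, Nat.factorial_pos _,
        fun r hr => ?_⟩
      obtain ⟨a, ha, hL⟩ := hgood r hr
      exact ⟨MvPolynomial.eval a, ha, key hL hΦ hw (root_toMf _ _ _ _ hβ)⟩
    rcases embed (R := MvPolynomial (Option T') ℂ) θ hθi ψ hfg halg hKP with h1 | h1
    · exact Or.inl h1
    · refine ih T' hT'c fun x => ?_
      refine alg_unlift (θ.comp (Polynomial.CAlgHom (R := ℂ) (A := MvPolynomial (Option T') ℂ)))
        ?_ ?_ (h1 x)
      · exact hθi.comp Polynomial.C_injective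
      · rintro _ ⟨P, rfl⟩
        change θ (Polynomial.C P) ∈ _
        induction P using MvPolynomial.induction_on with
        | C c =>
          have h2 : θ (Polynomial.C (MvPolynomial.C c)) = algebraMap ℂ Mf c := θ.commutes c
          rw [h2]
          exact Subalgebra.algebraMap_mem _ _
        | add P Q hP hQ =>
          rw [Polynomial.C_add, map_add]
          exact add_mem hP hQ
        | mul_X P v hP =>
          rw [Polynomial.C_mul, map_mul, hθC]
          refine mul_mem hP (Algebra.subset_adjoin ?_)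
          rcases v with _ | v
          · exact mem_insert _ _
          · exact mem_insert_of_mem _ ⟨v, v.2, rfl⟩

end Pool.Agent.X316.ZE
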