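import Pool.Agent.X316.ZG.Lim

/-!
Limits of rescaled meromorphic functions: solutions of algebraic equations, algebraic independence.
-/

set_option autoImplicit false

open Filter Topology Metric Set Polynomial

namespace Pool.Agent.X316.ZE

open Pool.Agent.X316.ZG

variable {τ : Type}

/-- The rescaled functions `X v` converge to the constants `a v`, and the rescaled function `x₀`
converges to the exponential function. -/
def Lim (X : τ → ℂ → ℂ) (x0 : ℂ → ℂ) (a : τ → ℂ) : Prop :=
  ∃ (c : ℕ → ℂ) (δ : ℕ → ℝ), (∀ k, 0 < δ k) ∧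
    (∀ k v, DifferentiableOn ℂ (X v) (ball (c k) (δ k * (k + 2)))) ∧
    (∀ k, DifferentiableOn ℂ x0 (ball (c k) (δ k * (k + 2)))) ∧
    (∀ (k : ℕ) (t : ℂ), ‖t‖ < k + 1 → ∀ v, ‖X v (c k + δ k * t) - a v‖ ≤ 1 / (k + 1)) ∧
    ∀ (k : ℕ) (t : ℂ), ‖t‖ < k + 1 → ‖x0 (c k + δ k * t) - Complex.exp t‖ ≤ 1 / (k + 1)

/-- every nonzero polynomial is nonzero at a limit point -/
def Good (X : τ → ℂ → ℂ) (x0 : ℂ → ℂ) : Prop :=
  ∀ r : MvPolynomial τ ℂ, r ≠ 0 → ∃ a : τ → ℂ, MvPolynomial.eval a r ≠ 0 ∧ Lim X x0 a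

variable [Fintype τ]

/-- **The key lemma**: the specialisations of the algebraic equation have polynomial solutions. -/
theorem key {X' : τ → ℂ → ℂ} {x0 : ℂ → ℂ} {a : τ → ℂ} (hL : Lim X' x0 a)
    {Φ : (MvPolynomial τ ℂ)[X][X]} (hΦ : Φ.Monic) {w : ℂ → ℂ} (hw : Meromorphic w)
    (hr : ∀ᶠ z in codiscrete ℂ, (Φ.map (evalAt (fun v => X' v z) (x0 z))).eval (w z) = 0) :
    ∃ G : ℂ[X], G.natDegree ≤ Φ.natDegree.factorial * dg Φ ∧
      ((Φ.map (Polynomial.mapRingHom (MvPolynomial.eval a))).map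
        (Polynomial.expand ℂ Φ.natDegree.factorial).toRingHom).eval G = 0 := by
  classical
  obtain ⟨c, δ, hδ, hd, hd0, h1, h2⟩ := hL
  have hwm : MeromorphicOn w univ := fun z _ => hw z
  let w' : ℂ → ℂ := toMeromorphicNFOn w univ
  have hw' : MeromorphicNFOn w' univ := meromorphicNFOn_toMeromorphicNFOn w univ
  have hww : ∀ᶠ z in codiscrete ℂ, w z = w' z := toMeromorphicNFOn_eqOn_codiscrete hwm
  have hmem : ∀ (k : ℕ) (t : ℂ), ‖t‖ < k + 1 → c k + δ k * t ∈ ball (c k) (δ k * (k + 2)) := by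
    intro k t ht
    rw [mem_ball, dist_eq_norm, add_sub_cancel_left, norm_mul, Complex.norm_real,
      Real.norm_of_nonneg (hδ k).le]
    exact mul_lt_mul_of_pos_left (by linarith) (hδ k)
  have hreg : ∀ (k : ℕ) (t : ℂ), ‖t‖ < k + 1 → AnalyticAt ℂ w' (c k + δ k * t) ∧
      (Φ.map (evalAt (fun v => X' v (c k + δ k * t))
        (x0 (c k + δ k * t)))).eval (w' (c k + δ k * t)) = 0 := by
    intro k t ht
    have h3 := hmem k t ht
    refine root_analytic hΦ (x := fun z v => X' v z) (x0 := x0) (w := w') ?_ ?_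
      (hw' (mem_univ _)) ?_
    · rw [continuousAt_pi]
      exact fun v => ((hd k v).differentiableAt (isOpen_ball.mem_nhds h3)).continuousAt
    · exact ((hd0 k).differentiableAt (isOpen_ball.mem_nhds h3)).continuousAt
    · filter_upwards [Pool.Agent.TH143.EL.codis_ev hr (c k + δ k * t),
        Pool.Agent.TH143.EL.codis_ev hww (c k + δ k * t)] with z h4 h5
      rwa [← h5]
  have hk1 : ∀ (k : ℕ) (t : ℂ), t ∈ ball (0 : ℂ) k → ‖t‖ < k + 1 := fun k t ht => by
    rw [mem_ball_zero_iff] at ht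
    linarith
  obtain ⟨W, hW, hWr⟩ := exists_limit_root hΦ a
    (fun k t v => X' v (c k + δ k * t))
    (fun k t => x0 (c k + δ k * t)) (fun k t => w' (c k + δ k * t))
    (fun k t ht => by
      have h3 := (hreg k t (hk1 k t ht)).1.differentiableAt
      exact (h3.comp t (f := fun t : ℂ => c k + δ k * t) (by fun_prop)).differentiableWithinAt)
    (fun k t ht => (hreg k t (hk1 k t ht)).2) (fun k t ht v => h1 k t (hk1 k t ht) v)
    (fun k t ht => h2 k t (hk1 k t ht))
  exact exists_poly_root hΦ hW hWr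

/-- algebraic independence -/
theorem key_indep {X' : τ → ℂ → ℂ} {x0 : ℂ → ℂ} (hG : Good X' x0) {P : (MvPolynomial τ ℂ)[X]}
    (hr : ∀ᶠ z in codiscrete ℂ, evalAt (fun v => X' v z) (x0 z) P = 0) : P = 0 := by
  classical
  have key : ∀ a : τ → ℂ, Lim X' x0 a → ∀ i, MvPolynomial.eval a (P.coeff i) = 0 := by
    intro a ha
    obtain ⟨c, δ, hδ, hd, hd0, h1, h2⟩ := ha
    have hmem : ∀ (k : ℕ) (t : ℂ), ‖t‖ < k + 1 → c k + δ k * t ∈ ball (c k) (δ k * (k + 2)) := by
      intro k t ht
      rw [mem_ball, dist_eq_norm, add_sub_cancel_left, norm_mul, Complex.norm_real,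
        Real.norm_of_nonneg (hδ k).le]
      exact mul_lt_mul_of_pos_left (by linarith) (hδ k)
    have hzero : ∀ (k : ℕ) (t : ℂ), ‖t‖ < k + 1 →
        evalAt (fun v => X' v (c k + δ k * t)) (x0 (c k + δ k * t)) P = 0 := by
      intro k t ht
      have h3 := hmem k t ht
      have hc1 : ContinuousAt (fun z v => X' v z) (c k + δ k * t) := by
        rw [continuousAt_pi]
        exact fun v => ((hd k v).differentiableAt (isOpen_ball.mem_nhds h3)).continuousAt
      have hc2 : ContinuousAt x0 (c k + δ k * t) :=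
        ((hd0 k).differentiableAt (isOpen_ball.mem_nhds h3)).continuousAt
      have h4 : ContinuousAt (fun z => evalAt (fun v => X' v z) (x0 z) P) (c k + δ k * t) :=
        (continuous_evalAt P).continuousAt.comp (f := fun z =>
          ((fun v => X' v z), x0 z)) (hc1.prodMk hc2)
      have h5 := h4.tendsto.mono_left (nhdsWithin_le_nhds (s := {c k + δ k * t}ᶜ))
      exact tendsto_nhds_unique h5 (tendsto_const_nhds.congr'
        ((Pool.Agent.TH143.EL.codis_ev hr (c k + δ k * t)).mono fun z hz => hz.symm))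
    have hexp : ∀ t : ℂ, evalAt a (Complex.exp t) P = 0 := by
      intro t
      have hev : ∀ᶠ k : ℕ in atTop, ‖t‖ < k + 1 := by
        obtain ⟨n, hn⟩ := exists_nat_gt ‖t‖
        filter_upwards [eventually_ge_atTop n] with k hk
        have : (n : ℝ) ≤ k := by exact_mod_cast hk
        linarith
      have hlim : Tendsto (fun k : ℕ => (1 : ℝ) / (k + 1)) atTop (𝓝 0) :=
        tendsto_one_div_add_atTop_nhds_zero_nat
      have hXt : Tendsto (fun (k : ℕ) v => X' v (c k + δ k * t)) atTop (𝓝 a) := by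
        rw [tendsto_pi_nhds]
        intro v
        rw [tendsto_iff_norm_sub_tendsto_zero]
        exact squeeze_zero' (Eventually.of_forall fun _ => norm_nonneg _)
          (hev.mono fun k hk => h1 k t hk v) hlim
      have hxt : Tendsto (fun k : ℕ => x0 (c k + δ k * t)) atTop (𝓝 (Complex.exp t)) := by
        rw [tendsto_iff_norm_sub_tendsto_zero]
        exact squeeze_zero' (Eventually.of_forall fun _ => norm_nonneg _)
          (hev.mono fun k hk => h2 k t hk) hlim
      have h3 := ((continuous_evalAt P).tendsto (a, Complex.exp t)).comp (hXt.prodMk_nhds hxt)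
      exact tendsto_nhds_unique h3 (tendsto_const_nhds.congr' (hev.mono fun k hk =>
        (hzero k t hk).symm))
    have hmap : P.map (MvPolynomial.eval a) = 0 := by
      refine Polynomial.eq_zero_of_infinite_isRoot _ (Set.Infinite.mono (s := {0}ᶜ) ?_
        (Set.Finite.infinite_compl (Set.finite_singleton (0 : ℂ))))
      intro x hx
      have hx0 : x ≠ 0 := hx
      have h3 := hexp (Complex.log x)
      rw [Complex.exp_log hx0] at h3
      exact h3
    intro i
    have h3 := congrArg (fun Q => Q.coeff i) hmap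
    simpa only [Polynomial.coeff_map, Polynomial.coeff_zero] using h3
  ext1 i
  rw [Polynomial.coeff_zero]
  by_contra hne
  obtain ⟨a, ha, hL⟩ := hG _ hne
  exact ha (key a hL i)

end Pool.Agent.X316.ZE
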