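import Mathlib

/-!
The ring generated by a ring of meromorphic functions and the derivatives of a family of
meromorphic functions.
-/

set_option autoImplicit false

open Filter Topology Set

namespace Pool.Agent.X316.ZE

variable {ι : Type}

/-- the ring of polynomials in the functions of `B₀` and the functions `u j` and their
derivatives -/
def polyR (B₀ : Subalgebra ℂ (ℂ → ℂ)) (u : ι → ℂ → ℂ) : Subalgebra ℂ (ℂ → ℂ) :=
  Algebra.adjoin ℂ ((B₀ : Set (ℂ → ℂ)) ∪ {g | ∃ j k, g = iteratedDeriv k (u j)})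

/-- The ring of the meromorphic functions which are, outside discrete sets, polynomials in the
functions of `B₀` and the functions `u j` and their derivatives. -/
def dringB (B₀ : Subalgebra ℂ (ℂ → ℂ)) (u : ι → ℂ → ℂ) : Subalgebra ℂ (ℂ → ℂ) where
  carrier := {b | Meromorphic b ∧ ∃ b' ∈ polyR B₀ u, ∀ᶠ z in codiscrete ℂ, b z = b' z}
  mul_mem' := by
    rintro a b ⟨ha, a', ha', h1⟩ ⟨hb, b', hb', h2⟩
    refine ⟨ha.mul hb, a' * b', mul_mem ha' hb', ?_⟩
    filter_upwards [h1, h2] with z h3 h4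
    rw [Pi.mul_apply, Pi.mul_apply, h3, h4]
  add_mem' := by
    rintro a b ⟨ha, a', ha', h1⟩ ⟨hb, b', hb', h2⟩
    refine ⟨ha.add hb, a' + b', add_mem ha' hb', ?_⟩
    filter_upwards [h1, h2] with z h3 h4
    rw [Pi.add_apply, Pi.add_apply, h3, h4]
  algebraMap_mem' := fun c => ⟨Meromorphic.const c, algebraMap ℂ _ c,
    Subalgebra.algebraMap_mem _ _, Eventually.of_forall fun _ => rfl⟩

end Pool.Agent.X316.ZE
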