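import Pool.Agent.X316.ZE.Good
import Pool.Agent.X316.ZE.RDef

/-!
The ring generated by a differential ring of meromorphic functions and the derivatives of a
family of meromorphic functions.
-/

set_option autoImplicit false

open Filter Topology Set MvPolynomial

namespace Pool.Agent.X316.ZE

open Pool.Agent.X316.ZG
open Pool.Agent.TH143.EL (TrOne NC nc_poly codis_ev codis_nhds mero_an mero_ne Ell trOne_ell)
open Pool.Agent.Y377.IL (DB AlgRatio)

variable {ι : Type}

theorem polyR_mero {B₀ : Subalgebra ℂ (ℂ → ℂ)} (hB : DB B₀) {u : ι → ℂ → ℂ}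
    (hu : ∀ j, Meromorphic (u j)) {b : ℂ → ℂ} (hb : b ∈ polyR B₀ u) : Meromorphic b := by
  induction hb using Algebra.adjoin_induction with
  | mem x hx =>
    rcases hx with hx | ⟨j, k, rfl⟩
    · exact hB.mero x hx
    · exact meromorphic_iteratedDeriv (hu j) k
  | algebraMap c => exact Meromorphic.const c
  | add x y _ _ hx hy => exact hx.add hy
  | mul x y _ _ hx hy => exact hx.mul hy

theorem polyR_deriv {B₀ : Subalgebra ℂ (ℂ → ℂ)} (hB : DB B₀) {u : ι → ℂ → ℂ}
    (hu : ∀ j, Meromorphic (u j)) {b : ℂ → ℂ} (hb : b ∈ polyR B₀ u) :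
    ∃ b' ∈ polyR B₀ u, ∀ᶠ z in codiscrete ℂ, deriv b z = b' z := by
  induction hb using Algebra.adjoin_induction with
  | mem x hx =>
    rcases hx with hx | ⟨j, k, rfl⟩
    · exact ⟨deriv x, Algebra.subset_adjoin (Or.inl (hB.der x hx)), Eventually.of_forall fun _ => rfl⟩
    · refine ⟨iteratedDeriv (k + 1) (u j), Algebra.subset_adjoin (Or.inr ⟨j, k + 1, rfl⟩),
        Eventually.of_forall fun _ => ?_⟩
      rw [iteratedDeriv_succ]
  | algebraMap c =>
    refine ⟨0, zero_mem _, Eventually.of_forall fun z => ?_⟩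
    have h1 : (algebraMap ℂ (ℂ → ℂ) c) = fun _ => c := rfl
    rw [h1, deriv_const]
    rfl
  | add x y hx' hy' hx hy =>
    obtain ⟨x', h1, h2⟩ := hx
    obtain ⟨y', h3, h4⟩ := hy
    refine ⟨x' + y', add_mem h1 h3, ?_⟩
    filter_upwards [h2, h4, mero_an (polyR_mero hB hu hx'), mero_an (polyR_mero hB hu hy')]
      with z h5 h6 h7 h8
    rw [Pi.add_apply, ← h5, ← h6]
    exact deriv_add h7.differentiableAt h8.differentiableAt
  | mul x y hx' hy' hx hy =>
    obtain ⟨x', h1, h2⟩ := hx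
    obtain ⟨y', h3, h4⟩ := hy
    refine ⟨x' * y + x * y', add_mem (mul_mem h1 hy') (mul_mem hx' h3), ?_⟩
    filter_upwards [h2, h4, mero_an (polyR_mero hB hu hx'), mero_an (polyR_mero hB hu hy')]
      with z h5 h6 h7 h8
    rw [Pi.add_apply, Pi.mul_apply, Pi.mul_apply, ← h5, ← h6]
    exact deriv_mul h7.differentiableAt h8.differentiableAt

theorem db_dringB {B₀ : Subalgebra ℂ (ℂ → ℂ)} (hB : DB B₀) {u : ι → ℂ → ℂ}
    (hu : ∀ j, Meromorphic (u j)) : DB (dringB B₀ u) where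
  mero := fun b hb => hb.1
  der := by
    rintro b ⟨hb, b', hb', h1⟩
    obtain ⟨c, hc, h2⟩ := polyR_deriv hB hu hb'
    refine ⟨fun x => (hb x).deriv, c, hc, ?_⟩
    have hmem : {z | b z = b' z} ∈ codiscrete ℂ := h1
    filter_upwards [h1, h2] with z h3 h4
    have h5 : b =ᶠ[𝓝 z] b' := codis_nhds hmem h3
    rw [h5.deriv_eq]
    exact h4

/-- the classes of the functions in `B₀` -/
def clS (B₀ : Subalgebra ℂ (ℂ → ℂ)) : Set Mf := {x | ∃ g, g ∈ B₀ ∧ ∃ hg : Meromorphic g, x = cl g hg}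

/-- the classes of the polynomials in finitely many derivatives -/
noncomputable def SS (B₀ : Subalgebra ℂ (ℂ → ℂ)) {u : ι → ℂ → ℂ} (hu : ∀ j, Meromorphic (u j))
    (T : Finset (ι × ℕ)) : Subalgebra ℂ Mf :=
  Algebra.adjoin ℂ (clS B₀ ∪ xc hu '' (T : Set (ι × ℕ)))

theorem SS_mono {B₀ : Subalgebra ℂ (ℂ → ℂ)} {u : ι → ℂ → ℂ} (hu : ∀ j, Meromorphic (u j))
    {T T' : Finset (ι × ℕ)} (h : T ⊆ T') : SS B₀ hu T ≤ SS B₀ hu T' :=
  Algebra.adjoin_mono (union_subset_union_right _ (image_mono (Finset.coe_subset.2 h)))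

theorem cl_polyR {B₀ : Subalgebra ℂ (ℂ → ℂ)} (hB : DB B₀) {u : ι → ℂ → ℂ}
    (hu : ∀ j, Meromorphic (u j)) {b : ℂ → ℂ} (hb : b ∈ polyR B₀ u) :
    ∃ T : Finset (ι × ℕ), ∀ hm : Meromorphic b, cl b hm ∈ SS B₀ hu T := by
  classical
  induction hb using Algebra.adjoin_induction with
  | mem x hx =>
    rcases hx with hx | ⟨j, k, rfl⟩
    · exact ⟨∅, fun hm => Algebra.subset_adjoin (Or.inl ⟨x, hx, hm, rfl⟩)⟩
    · exact ⟨{(j, k)}, fun hm => Algebra.subset_adjoin (Or.inr ⟨(j, k), by simp, rfl⟩)⟩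
  | algebraMap c =>
    refine ⟨∅, fun hm => ?_⟩
    have h1 : cl (algebraMap ℂ (ℂ → ℂ) c) hm = algebraMap ℂ Mf c := rfl
    rw [h1]
    exact Subalgebra.algebraMap_mem _ _
  | add x y hx' hy' hx hy =>
    obtain ⟨T1, h1⟩ := hx
    obtain ⟨T2, h2⟩ := hy
    refine ⟨T1 ∪ T2, fun hm => ?_⟩
    have hxm := polyR_mero hB hu hx'
    have hym := polyR_mero hB hu hy'
    have h3 : cl (x + y) hm = cl x hxm + cl y hym := rfl
    rw [h3]
    exact add_mem (SS_mono hu Finset.subset_union_left (h1 hxm))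
      (SS_mono hu Finset.subset_union_right (h2 hym))
  | mul x y hx' hy' hx hy =>
    obtain ⟨T1, h1⟩ := hx
    obtain ⟨T2, h2⟩ := hy
    refine ⟨T1 ∪ T2, fun hm => ?_⟩
    have hxm := polyR_mero hB hu hx'
    have hym := polyR_mero hB hu hy'
    have h3 : cl (x * y) hm = cl x hxm * cl y hym := rfl
    rw [h3]
    exact mul_mem (SS_mono hu Finset.subset_union_left (h1 hxm))
      (SS_mono hu Finset.subset_union_right (h2 hym))

theorem cl_dringB {B₀ : Subalgebra ℂ (ℂ → ℂ)} (hB : DB B₀) {u : ι → ℂ → ℂ}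
    (hu : ∀ j, Meromorphic (u j)) {b : ℂ → ℂ} (hb : b ∈ dringB B₀ u) :
    ∃ T : Finset (ι × ℕ), ∀ hm : Meromorphic b, cl b hm ∈ SS B₀ hu T := by
  obtain ⟨hbm, b', hb', h1⟩ := hb
  obtain ⟨T, hT⟩ := cl_polyR hB hu hb'
  refine ⟨T, fun hm => ?_⟩
  have h2 : cl b hm = cl b' (polyR_mero hB hu hb') := cl_eq h1
  rw [h2]
  exact hT _

/-- polynomial relations between meromorphic functions -/
theorem alg_of_rel {a b : ℂ → ℂ} (ha : Meromorphic a) (hb : Meromorphic b) (hb0 : cl b hb ≠ 0)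
    {S : Subalgebra ℂ Mf} {m : ℕ} {c : ℕ → ℂ → ℂ} (hcm : ∀ k, Meromorphic (c k))
    (hmem : ∀ k, k ≤ m → cl (c k) (hcm k) ∈ S)
    (hne : ∃ k ≤ m, ¬ ∀ᶠ z in codiscrete ℂ, c k z = 0)
    (hs : ∀ᶠ z in codiscrete ℂ, ∑ k ∈ Finset.range (m + 1), c k z * a z ^ k * b z ^ (m - k) = 0) :
    IsAlgebraic S (cl a ha / cl b hb) := by
  classical
  obtain ⟨k0, hk0, hne⟩ := hne
  let s : ℕ → S := fun k => if hk : k ≤ m then ⟨cl (c k) (hcm k), hmem k hk⟩ else 0
  have hs' : ∀ k, k ≤ m → ((s k : S) : Mf) = cl (c k) (hcm k) := fun k hk => by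
    simp only [s, dif_pos hk]
  let Q : Polynomial S := ∑ k ∈ Finset.range (m + 1), Polynomial.C (s k) * Polynomial.X ^ k
  refine ⟨Q, fun h0 => ?_, ?_⟩
  · have h1 : Q.coeff k0 = s k0 := by
      simp only [Q, Polynomial.finsetSum_coeff, Polynomial.coeff_C_mul, Polynomial.coeff_X_pow]
      rw [Finset.sum_eq_single_of_mem k0 (Finset.mem_range.2 (by omega))]
      · simp
      · intro j _ hj
        rw [if_neg (Ne.symm hj), mul_zero]
    rw [h0, Polynomial.coeff_zero] at h1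
    apply hne
    have h2 : cl (c k0) (hcm k0) = 0 := by
      rw [← hs' k0 hk0, ← h1]
      rfl
    exact cl_zero.1 h2
  · have h1 : ∑ k ∈ Finset.range (m + 1), cl (c k) (hcm k) * cl a ha ^ k * cl b hb ^ (m - k) =
        0 := by
      have h2 : ∑ k ∈ Finset.range (m + 1), cl (c k) (hcm k) * cl a ha ^ k *
          cl b hb ^ (m - k) = Ideal.Quotient.mk nullI (∑ k ∈ Finset.range (m + 1),
            (⟨c k, hcm k⟩ : merS) * ⟨a, ha⟩ ^ k * ⟨b, hb⟩ ^ (m - k)) := by
        rw [map_sum]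
        refine Finset.sum_congr rfl fun k _ => ?_
        rw [map_mul, map_mul, map_pow, map_pow]
        rfl
      rw [h2, Ideal.Quotient.eq_zero_iff_mem, mem_nullI]
      filter_upwards [hs] with z hz
      have h3 : ((∑ k ∈ Finset.range (m + 1), (⟨c k, hcm k⟩ : merS) * ⟨a, ha⟩ ^ k *
          ⟨b, hb⟩ ^ (m - k) : merS) : ℂ → ℂ) z =
          evz z (∑ k ∈ Finset.range (m + 1), (⟨c k, hcm k⟩ : merS) * ⟨a, ha⟩ ^ k *
          ⟨b, hb⟩ ^ (m - k)) := rfl
      rw [h3, map_sum, ← hz]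
      refine Finset.sum_congr rfl fun k _ => ?_
      rw [map_mul, map_mul, map_pow, map_pow]
      rfl
    have h4 : Polynomial.aeval (cl a ha / cl b hb) Q * cl b hb ^ m = 0 := by
      rw [← h1, Polynomial.aeval_def]
      simp only [Q]
      rw [Polynomial.eval₂_finsetSum, Finset.sum_mul]
      refine Finset.sum_congr rfl fun k hk => ?_
      have hk' : k ≤ m := by
        have := Finset.mem_range.1 hk
        omega
      rw [Polynomial.eval₂_mul, Polynomial.eval₂_C, Polynomial.eval₂_pow, Polynomial.eval₂_X]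
      have h5 : algebraMap S Mf (s k) = cl (c k) (hcm k) := hs' k hk'
      have h6 : cl b hb ^ m = cl b hb ^ k * cl b hb ^ (m - k) := by
        rw [← pow_add, Nat.add_sub_cancel' hk']
      rw [h5, h6, div_pow]
      have h7 : cl b hb ^ k ≠ 0 := pow_ne_zero _ hb0
      field_simp
    exact (mul_eq_zero.1 h4).resolve_right (pow_ne_zero _ hb0)

theorem alg_of_ratioB {B₀ : Subalgebra ℂ (ℂ → ℂ)} (hB : DB B₀) {u : ι → ℂ → ℂ}
    (hu : ∀ j, Meromorphic (u j)) {a b : ℂ → ℂ}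
    (ha : Meromorphic a) (hb : Meromorphic b) (hb0 : cl b hb ≠ 0)
    (h : AlgRatio (dringB B₀ u) a b) : ∃ T : Finset (ι × ℕ),
      IsAlgebraic (SS B₀ hu T) (cl a ha / cl b hb) := by
  classical
  obtain ⟨m, c, hc, hne, hs⟩ := h
  have hcm : ∀ k, Meromorphic (c k) := fun k => (hc k).1
  choose T hT using fun k => cl_dringB hB hu (hc k)
  refine ⟨(Finset.range (m + 1)).biUnion T, alg_of_rel ha hb hb0 hcm (fun k hk => ?_) hne hs⟩
  exact SS_mono hu (Finset.subset_biUnion_of_mem T (Finset.mem_range.2 (by omega))) (hT k _)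

theorem cl_transcendental {e : ℂ → ℂ} (he : Meromorphic e) (hnc : NC e) :
    Transcendental ℂ (cl e he) := by
  rintro ⟨P, hP0, hP⟩
  apply hP0
  apply nc_poly he hnc
  have h1 : Polynomial.aeval (cl e he) P =
      Ideal.Quotient.mk nullI (Polynomial.aeval (⟨e, he⟩ : merS) P) :=
    (Polynomial.aeval_algHom_apply (Ideal.Quotient.mkₐ ℂ nullI) (⟨e, he⟩ : merS) P)
  rw [h1, Ideal.Quotient.eq_zero_iff_mem, mem_nullI] at hP
  filter_upwards [hP] with z hz
  have h2 : evz z (Polynomial.aeval (⟨e, he⟩ : merS) P) = 0 := hz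
  rw [← Polynomial.aeval_algHom_apply] at h2
  rw [← h2]
  rfl

/-- the functions of a ring of transcendence degree one are algebraic over a nonconstant one -/
theorem alg_trOne {B₀ : Subalgebra ℂ (ℂ → ℂ)} (hB : TrOne B₀) {e : ℂ → ℂ} (heB : e ∈ B₀)
    (he : Meromorphic e) (hnc : NC e) {g : ℂ → ℂ} (hg : g ∈ B₀) (hgm : Meromorphic g) :
    IsAlgebraic (Algebra.adjoin ℂ {cl e he} : Subalgebra ℂ Mf) (cl g hgm) := by
  by_contra hcon
  obtain ⟨P, hP0, hP⟩ := hB.dep e heB g hg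
  have h1 : AlgebraicIndependent ℂ (fun _ : Unit => cl e he) := by
    rw [algebraicIndependent_unique_type_iff]
    exact cl_transcendental he hnc
  have h2 : AlgebraicIndependent ℂ (fun o : Option Unit => o.elim (cl g hgm) fun _ => cl e he) := by
    rw [h1.option_iff_transcendental]
    have h3 : Set.range (fun _ : Unit => cl e he) = {cl e he} := by
      ext x
      simp
    rw [h3]
    exact hcon
  apply hP0
  let κ : Fin 2 → Option Unit := ![some (), none]
  have hκ : Function.Injective κ := by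
    intro a b
    fin_cases a <;> fin_cases b <;> simp [κ]
  have h4 := h2.comp κ hκ
  have h5 : (fun o : Option Unit => o.elim (cl g hgm) fun _ => cl e he) ∘ κ =
      fun j : Fin 2 => cl ((![e, g] : Fin 2 → ℂ → ℂ) j)
        (by fin_cases j; exacts [he, hgm]) := by
    funext j
    fin_cases j <;> rfl
  rw [h5] at h4
  have h6 := (algebraicIndependent_iff.1 h4) P
  apply h6
  rw [aeval_cl_zero]
  filter_upwards [hP] with z hz
  rw [← hz]
  congr 2
  funext j
  fin_cases j <;> rfl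

end Pool.Agent.X316.ZE
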