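import Pool.Agent.X316.ZE.Uni
import Pool.Agent.X316.ZE.Lim
import Pool.Agent.TH143.EL.Ell

/-!
Limits of rescaled derivatives of a jointly universal family together with a doubly periodic
function.
-/

set_option autoImplicit false

open Filter Topology Metric Set Polynomial

namespace Pool.Agent.X316.ZE

open Pool.Agent.X316.ZG

/-- every translate of `e` is a translate by a bounded number -/
def CoBdd (e : ℂ → ℂ) : Prop := ∃ M : ℝ, ∀ c, ∃ p : ℂ, ‖p‖ ≤ M ∧ ∀ z, e (c + z) = e (p + z)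

theorem coBdd_of_periodic {ω₁ ω₂ : ℂ} (hind : LinearIndependent ℝ ![ω₁, ω₂]) {e : ℂ → ℂ}
    (h1 : ∀ z, e (z + ω₁) = e z) (h2 : ∀ z, e (z + ω₂) = e z) : CoBdd e := by
  refine ⟨‖ω₁‖ + ‖ω₂‖, fun c => ?_⟩
  obtain ⟨m, n, hmn⟩ := Pool.Agent.TH143.EL.exists_shift hind c
  refine ⟨_, hmn, fun z => ?_⟩
  have h3 : ∀ (m : ℤ) (z : ℂ), e (z + m * ω₁) = e z := fun m z => by
    have := (show Function.Periodic e ω₁ from h1).int_mul m z
    exact this
  have h4 : ∀ (m : ℤ) (z : ℂ), e (z + m * ω₂) = e z := fun m z => by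
    have := (show Function.Periodic e ω₂ from h2).int_mul m z
    exact this
  have e1 : c + (m * ω₁ + n * ω₂) + z = c + z + m * ω₁ + n * ω₂ := by ring
  rw [e1, h4, h3]

/-- good points -/
theorem exists_good {e : ℂ → ℂ} (he : Meromorphic e) {F : Finset ℂ}
    (hF : ∀ b ∈ F, ∀ᶠ z in codiscrete ℂ, e z ≠ b) {r M : ℝ} (hr : 0 < r) :
    ∃ S : Finset ℂ, (∀ s ∈ S, ‖s‖ < r) ∧ ∀ p : ℂ, ‖p‖ ≤ M →
      ∃ s ∈ S, AnalyticAt ℂ e (p + s) ∧ e (p + s) ∉ F := by
  classical
  let U : Set ℂ := {p | AnalyticAt ℂ e p ∧ e p ∉ F}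
  have hU : U ∈ codiscrete ℂ := by
    have h1 : ∀ᶠ z in codiscrete ℂ, ∀ b ∈ F, e z ≠ b := by
      rw [Filter.eventually_all_finset]
      exact hF
    filter_upwards [Pool.Agent.TH143.EL.mero_an he, h1] with z h2 h3
    exact ⟨h2, fun h4 => h3 _ h4 rfl⟩
  have hfin : (closedBall (0 : ℂ) (M + r) ∩ Uᶜ).Finite := by
    have h1 := compl_mem_codiscrete_iff.1 (show Uᶜᶜ ∈ codiscrete ℂ by rwa [compl_compl])
    exact ((isCompact_closedBall _ _).inter_right h1.1).finite (h1.2.mono inter_subset_right)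
  obtain ⟨S, hSb, hSc⟩ := (show (ball (0 : ℂ) r).Infinite from
    infinite_of_mem_nhds 0 (ball_mem_nhds 0 hr)).exists_subset_card_eq (hfin.toFinset.card + 1)
  refine ⟨S, fun s hs => mem_ball_zero_iff.1 (hSb hs), fun p hp => ?_⟩
  by_contra hcon
  push Not at hcon
  have h1 : S.image (fun s => p + s) ⊆ hfin.toFinset := by
    intro x hx
    obtain ⟨s, hs, rfl⟩ := Finset.mem_image.1 hx
    rw [Set.Finite.mem_toFinset]
    refine ⟨?_, fun h2 => h2.2 (hcon s hs h2.1)⟩
    rw [mem_closedBall_zero_iff]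
    have := mem_ball_zero_iff.1 (hSb hs)
    linarith [norm_add_le p s]
  have h2 := Finset.card_le_card h1
  rw [Finset.card_image_of_injective _ (add_right_injective p), hSc] at h2
  omega

variable {ι : Type} {T : Finset (ι × ℕ)} {j0 : ι} {m : ℕ}

/-- the functions: a doubly periodic function and the derivatives of the universal functions -/
noncomputable def fam (e : ℂ → ℂ) (u : ι → ℂ → ℂ) (T : Finset (ι × ℕ)) : Option T → ℂ → ℂ
  | none => e
  | some v => iteratedDeriv v.1.2 (u v.1.1)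

theorem exists_lim {u : ι → ℂ → ℂ} (hu : JointlyUniversal u) (hT : ∀ v ∈ T, v.1 = j0 → v.2 < m)
    {e : ℂ → ℂ} (he : Meromorphic e) (hper : CoBdd e) {F : Finset ℂ}
    (hF : ∀ b ∈ F, ∀ᶠ z in codiscrete ℂ, e z ≠ b)
    (a : T → ℂ) (ha : ∀ v : T, v.1.2 = 0 → a v ≠ 0) :
    ∃ b ∉ F, Lim (fam e u T) (iteratedDeriv m (u j0)) (fun v => Option.elim v b a) := by
  classical
  let J : Finset ι := insert j0 (T.image Prod.fst)
  have hJ : ∀ v : T, v.1.1 ∈ J := fun v =>
    Finset.mem_insert_of_mem (Finset.mem_image_of_mem _ v.2)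
  let j1 : J := ⟨j0, Finset.mem_insert_self _ _⟩
  obtain ⟨r, hr, hur⟩ := universal_shifts (hu.approx J)
  obtain ⟨M, hM⟩ := hper
  obtain ⟨S, hSr, hS⟩ := exists_good (M := M) he hF hr
  have hU := hur S hSr
  let a' : S × J → ℕ → ℂ := fun x i =>
    if h : (x.2.1, i) ∈ T then a ⟨(x.2.1, i), h⟩ else 1
  have ha' : ∀ x : S × J, ¬ (x.2 = j1) ∨ 0 < m → a' x 0 ≠ 0 := by
    intro x _
    by_cases h : (x.2.1, 0) ∈ T
    · simp only [a', dif_pos h]
      exact ha _ rfl
    · simp only [a', dif_neg h]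
      exact one_ne_zero
  obtain ⟨n, hn⟩ : ∃ n, m < n ∧ ∀ v ∈ T, v.2 < n := by
    refine ⟨(T.sup fun v => v.2) + m + 1, by omega, fun v hv => ?_⟩
    have h1 : v.2 ≤ T.sup fun v => v.2 := Finset.le_sup (f := fun v : ι × ℕ => v.2) hv
    omega
  have h1 : ∀ k : ℕ, _ := fun k => exists_shift' hU (fun x => x.2 = j1)
    hn.1 a' ha' (R := k + 1) (ε := 1 / (k + 1)) (by positivity) (by positivity)
  choose c δ hδ hδR hd hc using h1
  choose p hpM hp using fun k => hM (c k)
  -- a convergent subsequence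
  obtain ⟨p0, hp0, φ, hφ, hlim⟩ := tendsto_subseq_of_bounded (isBounded_closedBall (x := (0 : ℂ))
    (r := M)) (x := p) (fun k => mem_closedBall_zero_iff.2 (hpM k))
  rw [isClosed_closedBall.closure_eq, mem_closedBall_zero_iff] at hp0
  obtain ⟨s, hs, han, hb⟩ := hS p0 hp0
  refine ⟨e (p0 + s), hb, ?_⟩
  -- the choice of the indices
  have hk : ∀ i : ℕ, ∃ k : ℕ, i ≤ k ∧ DifferentiableOn ℂ e (ball (c k + s) (δ k * (i + 2))) ∧
      ∀ t : ℂ, ‖t‖ < i + 1 → ‖e (c k + s + δ k * t) - e (p0 + s)‖ ≤ 1 / (i + 1) := by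
    intro i
    have h2 : ∀ᶠ z in 𝓝 (p0 + s), AnalyticAt ℂ e z ∧ ‖e z - e (p0 + s)‖ < 1 / (i + 1) := by
      refine han.eventually_analyticAt.and ?_
      have h3 : Tendsto (fun z => ‖e z - e (p0 + s)‖) (𝓝 (p0 + s)) (𝓝 ‖e (p0 + s) - e (p0 + s)‖) :=
        ((han.continuousAt.sub continuousAt_const).norm)
      rw [sub_self, norm_zero] at h3
      exact h3.eventually (gt_mem_nhds (by positivity))
    obtain ⟨ρ, hρ, h3⟩ := Metric.eventually_nhds_iff_ball.1 h2
    have h4 : ∀ᶠ l in atTop, ‖p (φ l) - p0‖ < ρ / 2 := by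
      have h5 := hlim
      rw [tendsto_iff_norm_sub_tendsto_zero] at h5
      exact h5.eventually (gt_mem_nhds (by positivity))
    have h5 : ∀ᶠ l : ℕ in atTop, (1 : ℝ) / (l + 1) < ρ / 2 :=
      tendsto_one_div_add_atTop_nhds_zero_nat.eventually (gt_mem_nhds (by positivity))
    obtain ⟨l, ⟨h6, h7⟩, h8⟩ := ((h4.and h5).and (eventually_ge_atTop i)).exists
    have hl : l ≤ φ l := hφ.id_le l
    have hlr : (l : ℝ) ≤ φ l := by exact_mod_cast hl
    have hil : (i : ℝ) ≤ l := by exact_mod_cast h8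
    have h9 : δ (φ l) * (i + 2) < ρ / 2 := by
      have h10 := hδR (φ l)
      have h11 : (1 : ℝ) / (φ l + 1) ≤ 1 / (l + 1) :=
        one_div_le_one_div_of_le (by positivity) (by linarith)
      have h12 : δ (φ l) * (i + 2) ≤ δ (φ l) * (φ l + 1 + 2) :=
        mul_le_mul_of_nonneg_left (by linarith) (hδ (φ l)).le
      linarith
    have htr : ∀ x : ℂ, e (c (φ l) + s + x) = e (p (φ l) + s + x) := by
      intro x
      rw [add_assoc, add_assoc]
      exact hp (φ l) (s + x)
    have hmem : ∀ x : ℂ, ‖x‖ < δ (φ l) * (i + 2) → p (φ l) + s + x ∈ ball (p0 + s) ρ := by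
      intro x hx
      rw [mem_ball, dist_eq_norm]
      calc ‖p (φ l) + s + x - (p0 + s)‖ = ‖(p (φ l) - p0) + x‖ := by congr 1; ring
        _ ≤ ‖p (φ l) - p0‖ + ‖x‖ := norm_add_le _ _
        _ < ρ := by linarith
    refine ⟨φ l, h8.trans hl, ?_, fun t ht => ?_⟩
    · intro z hz
      have hz' : ‖z - (c (φ l) + s)‖ < δ (φ l) * (i + 2) := by rwa [mem_ball, dist_eq_norm] at hz
      have h10 := (h3 _ (hmem _ hz')).1.differentiableAt
      have h11 : e = fun z => e (z + (p (φ l) - c (φ l))) := by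
        funext z
        have h12 := hp (φ l) (z - c (φ l))
        rw [add_sub_cancel] at h12
        rw [h12]
        congr 1
        ring
      have h13 : DifferentiableAt ℂ (fun z => e (z + (p (φ l) - c (φ l)))) z := by
        refine DifferentiableAt.comp z (g := e) (f := fun z => z + (p (φ l) - c (φ l))) ?_
          (by fun_prop)
        have h14 : z + (p (φ l) - c (φ l)) = p (φ l) + s + (z - (c (φ l) + s)) := by ring
        rw [h14]
        exact h10
      rw [← h11] at h13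
      exact h13.differentiableWithinAt
    · have h10 : ‖(δ (φ l) : ℂ) * t‖ < δ (φ l) * (i + 2) := by
        rw [norm_mul, Complex.norm_real, Real.norm_of_nonneg (hδ _).le]
        exact mul_lt_mul_of_pos_left (by linarith) (hδ _)
      rw [htr]
      exact (h3 _ (hmem _ h10)).2.le
  choose k hki hke hkt using hk
  have hki' : ∀ i : ℕ, (i : ℝ) ≤ k i := fun i => by exact_mod_cast hki i
  -- the derivatives
  have hsub : ∀ i : ℕ, ball (c (k i) + s) (δ (k i) * (i + 2)) ⊆
      ball (c (k i) + s) (δ (k i) * (k i + 2)) := fun i =>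
    ball_subset_ball (mul_le_mul_of_nonneg_left (by linarith [hki' i]) (hδ _).le)
  have hdJ : ∀ i (j : J), DifferentiableOn ℂ (u j) (ball (c (k i) + s) (δ (k i) * (k i + 2))) := by
    intro i j
    have h2 := hd (k i) (⟨s, hs⟩, j)
    have h3 : ((k i : ℕ) : ℝ) + 1 + 1 = k i + 2 := by ring
    rw [h3] at h2
    intro z hz
    have hz' : z - s ∈ ball (c (k i)) (δ (k i) * (k i + 2)) := by
      rw [mem_ball, dist_eq_norm] at hz ⊢
      rwa [sub_sub, add_comm s]
    have h4 := h2.differentiableAt (isOpen_ball.mem_nhds hz')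
    have h5 : u j = fun z => (fun z => u j (z + s)) (z - s) := by
      funext z
      change u j z = u j (z - s + s)
      rw [sub_add_cancel]
    have h6 : DifferentiableAt ℂ (fun z => (fun z => u j (z + s)) (z - s)) z :=
      DifferentiableAt.comp z (g := fun z => u j (z + s)) (f := fun z => z - s) h4 (by fun_prop)
    rw [← h5] at h6
    exact h6.differentiableWithinAt
  have hcs : ∀ i j (z : ℂ), iteratedDeriv i (fun z => u j (z + s)) z =
      iteratedDeriv i (u j) (z + s) := by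
    intro i j z
    rw [iteratedDeriv_comp_add_const]
  refine ⟨fun i => c (k i) + s, fun i => δ (k i), fun i => hδ _, fun i v => ?_, fun i => ?_,
    fun i t ht v => ?_, fun i t ht => ?_⟩
  · rcases v with _ | v
    · exact hke i
    · intro z hz
      exact (an_deriv (hdJ i ⟨v.1.1, hJ v⟩) (hsub i hz) v.1.2).differentiableAt.differentiableWithinAt
  · intro z hz
    exact (an_deriv (hdJ i j1) (hsub i hz) m).differentiableAt.differentiableWithinAt
  · rcases v with _ | v
    · exact hkt i t ht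
    · have h2 := (hc (k i) t (by linarith [hki' i])).1 (⟨s, hs⟩, ⟨v.1.1, hJ v⟩) v.1.2
        (hn.2 v v.2) (by
          by_cases h : v.1.1 = j0
          · exact Or.inr (hT v v.2 h)
          · exact Or.inl fun h' => h (congrArg Subtype.val h'))
      have h3 : a' (⟨s, hs⟩, ⟨v.1.1, hJ v⟩) v.1.2 = a v := by
        simp only [a', Prod.mk.eta]
        rw [dif_pos v.2]
      rw [h3] at h2
      have h4 : iteratedDeriv v.1.2 (fun z => u v.1.1 (z + s)) (c (k i) + δ (k i) * t) =
          iteratedDeriv v.1.2 (u v.1.1) (c (k i) + s + δ (k i) * t) := by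
        rw [hcs]
        congr 1
        ring
      have h5 := h2.le
      change ‖iteratedDeriv v.1.2 (fun z => u v.1.1 (z + s)) (c (k i) + δ (k i) * t) - a v‖ ≤ _
        at h5
      rw [h4] at h5
      exact h5.trans (one_div_le_one_div_of_le (by positivity) (by linarith [hki' i]))
  · have h2 := (hc (k i) t (by linarith [hki' i])).2 (⟨s, hs⟩, j1) rfl
    have h4 : iteratedDeriv m (fun z => u j0 (z + s)) (c (k i) + δ (k i) * t) =
        iteratedDeriv m (u j0) (c (k i) + s + δ (k i) * t) := by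
      rw [hcs]
      congr 1
      ring
    have h5 := h2.le
    change ‖iteratedDeriv m (fun z => u j0 (z + s)) (c (k i) + δ (k i) * t) - _‖ ≤ _ at h5
    rw [h4] at h5
    exact h5.trans (one_div_le_one_div_of_le (by positivity) (by linarith [hki' i]))

end Pool.Agent.X316.ZE
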