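import Pool.Agent.X316.ZG.Uni

/-!
Jointly universal families: approximation near several points at the same time.
-/

set_option autoImplicit false

open Filter Topology Metric Set Polynomial

namespace Pool.Agent.X316.ZE

open Pool.Agent.X316.ZG

theorem iter_zero (n : ℕ) {w : ℂ} (hw : ‖w‖ ≤ 1 / 8) :
    ‖(fun w : ℂ => w ^ 2 * (3 - 2 * w))^[n] w‖ ≤ 1 / 8 / 2 ^ n := by
  induction n with
  | zero => simpa using hw
  | succ n ih =>
    rw [Function.iterate_succ_apply']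
    set v := (fun w : ℂ => w ^ 2 * (3 - 2 * w))^[n] w with hv
    have h0 : (1 : ℝ) / 8 / 2 ^ n ≤ 1 / 8 := by
      rw [div_le_iff₀ (by positivity)]
      have : (1 : ℝ) ≤ 2 ^ n := one_le_pow₀ (by norm_num)
      nlinarith
    have h1 : ‖v‖ ≤ 1 / 8 := ih.trans h0
    have h2 : ‖(3 - 2 * v : ℂ)‖ ≤ 4 := by
      calc ‖(3 - 2 * v : ℂ)‖ ≤ ‖(3 : ℂ)‖ + ‖(2 * v : ℂ)‖ := norm_sub_le _ _
        _ ≤ 4 := by
          rw [norm_mul]
          norm_num
          linarith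
    change ‖v ^ 2 * (3 - 2 * v)‖ ≤ _
    rw [norm_mul, norm_pow]
    have h3 : (1 : ℝ) / 8 / 2 ^ (n + 1) = (1 / 8 / 2 ^ n) / 2 := by
      rw [pow_succ]
      field_simp
    rw [h3]
    have h4 : ‖v‖ ^ 2 * ‖(3 - 2 * v : ℂ)‖ ≤ ‖v‖ ^ 2 * 4 := by gcongr
    have h5 : ‖v‖ ^ 2 * 4 ≤ ‖v‖ / 2 := by nlinarith [norm_nonneg v]
    linarith

theorem iter_one (n : ℕ) {w : ℂ} (hw : ‖w - 1‖ ≤ 1 / 8) :
    ‖(fun w : ℂ => w ^ 2 * (3 - 2 * w))^[n] w - 1‖ ≤ 1 / 8 / 2 ^ n := by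
  induction n with
  | zero => simpa using hw
  | succ n ih =>
    rw [Function.iterate_succ_apply']
    set v := (fun w : ℂ => w ^ 2 * (3 - 2 * w))^[n] w with hv
    have h0 : (1 : ℝ) / 8 / 2 ^ n ≤ 1 / 8 := by
      rw [div_le_iff₀ (by positivity)]
      have : (1 : ℝ) ≤ 2 ^ n := one_le_pow₀ (by norm_num)
      nlinarith
    have h1 : ‖v - 1‖ ≤ 1 / 8 := ih.trans h0
    have h2 : ‖(1 + 2 * v : ℂ)‖ ≤ 4 := by
      have e : (1 + 2 * v : ℂ) = 3 + 2 * (v - 1) := by ring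
      rw [e]
      calc ‖(3 + 2 * (v - 1) : ℂ)‖ ≤ ‖(3 : ℂ)‖ + ‖(2 * (v - 1) : ℂ)‖ := norm_add_le _ _
        _ ≤ 4 := by
          rw [norm_mul]
          norm_num
          linarith
    change ‖v ^ 2 * (3 - 2 * v) - 1‖ ≤ _
    have e2 : v ^ 2 * (3 - 2 * v) - 1 = -((v - 1) ^ 2 * (1 + 2 * v)) := by ring
    rw [e2, norm_neg, norm_mul, norm_pow]
    have h3 : (1 : ℝ) / 8 / 2 ^ (n + 1) = (1 / 8 / 2 ^ n) / 2 := by
      rw [pow_succ]
      field_simp
    rw [h3]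
    have h4 : ‖v - 1‖ ^ 2 * ‖(1 + 2 * v : ℂ)‖ ≤ ‖v - 1‖ ^ 2 * 4 := by gcongr
    have h5 : ‖v - 1‖ ^ 2 * 4 ≤ ‖v - 1‖ / 2 := by nlinarith [norm_nonneg (v - 1)]
    linarith

/-- entire functions close to one near `p` and close to zero near the other points -/
theorem exists_bump (S : Finset ℂ) (p : ℂ) : ∃ ρ : ℝ, 0 < ρ ∧ ∀ ε : ℝ, 0 < ε →
    ∃ χ : ℂ → ℂ, Differentiable ℂ χ ∧ (∀ s ∈ ball p ρ, ‖χ s - 1‖ < ε) ∧
      ∀ p' ∈ S, p' ≠ p → ∀ s ∈ ball p' ρ, ‖χ s‖ < ε := by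
  classical
  let L : ℂ → ℂ := fun s => ∏ p' ∈ S.erase p, (s - p') / (p - p')
  have hLd : Differentiable ℂ L := by
    intro s
    exact DifferentiableAt.fun_finsetProd fun i _ => by fun_prop
  have hLp : L p = 1 := by
    refine Finset.prod_eq_one fun p' hp' => ?_
    exact div_self (sub_ne_zero.2 (Finset.ne_of_mem_erase hp').symm)
  have hLp' : ∀ p' ∈ S, p' ≠ p → L p' = 0 := by
    intro p' hp' hne
    refine Finset.prod_eq_zero (Finset.mem_erase.2 ⟨hne, hp'⟩) ?_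
    rw [sub_self, zero_div]
  have h1 : ∀ᶠ ρ : ℝ in 𝓝[>] 0, ∀ s ∈ ball p ρ, ‖L s - 1‖ ≤ 1 / 8 := by
    have h2 : ∀ᶠ s in 𝓝 p, ‖L s - 1‖ < 1 / 8 := by
      have h3 : Tendsto (fun s => ‖L s - 1‖) (𝓝 p) (𝓝 ‖L p - 1‖) :=
        ((hLd.continuous.sub continuous_const).norm).tendsto p
      rw [hLp, sub_self, norm_zero] at h3
      exact h3.eventually (gt_mem_nhds (by norm_num))
    obtain ⟨ρ, hρ, h3⟩ := Metric.eventually_nhds_iff_ball.1 h2
    filter_upwards [Ioo_mem_nhdsGT hρ] with ρ' hρ' s hs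
    exact (h3 s (ball_subset_ball hρ'.2.le hs)).le
  have h2 : ∀ᶠ ρ : ℝ in 𝓝[>] 0, ∀ p' ∈ S, p' ≠ p → ∀ s ∈ ball p' ρ, ‖L s‖ ≤ 1 / 8 := by
    rw [Filter.eventually_all_finset]
    intro p' hp'
    by_cases hne : p' = p
    · exact Eventually.of_forall fun ρ h => absurd hne h
    have h2 : ∀ᶠ s in 𝓝 p', ‖L s‖ < 1 / 8 := by
      have h3 : Tendsto (fun s => ‖L s‖) (𝓝 p') (𝓝 ‖L p'‖) := (hLd.continuous.norm).tendsto p'
      rw [hLp' p' hp' hne, norm_zero] at h3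
      exact h3.eventually (gt_mem_nhds (by norm_num))
    obtain ⟨ρ, hρ, h3⟩ := Metric.eventually_nhds_iff_ball.1 h2
    filter_upwards [Ioo_mem_nhdsGT hρ] with ρ' hρ' _ s hs
    exact (h3 s (ball_subset_ball hρ'.2.le hs)).le
  obtain ⟨ρ, ⟨h3, h4⟩, h5⟩ := ((h1.and h2).and eventually_mem_nhdsWithin).exists
  refine ⟨ρ, h5, fun ε hε => ?_⟩
  obtain ⟨n, hn⟩ : ∃ n : ℕ, (1 : ℝ) / 8 / 2 ^ n < ε := by
    obtain ⟨n, hn⟩ := exists_pow_lt_of_lt_one (show 0 < ε * 8 by positivity)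
      (show (1 / 2 : ℝ) < 1 by norm_num)
    refine ⟨n, ?_⟩
    have e : (1 : ℝ) / 8 / 2 ^ n = (1 / 2) ^ n / 8 := by
      rw [one_div_pow]
      field_simp
    rw [e]
    linarith
  have hφ : ∀ n : ℕ, Differentiable ℂ ((fun w : ℂ => w ^ 2 * (3 - 2 * w))^[n]) := by
    intro n
    have h6 : Differentiable ℂ (fun w : ℂ => w ^ 2 * (3 - 2 * w)) := by fun_prop
    induction n with
    | zero => exact differentiable_id
    | succ n ih =>
      rw [Function.iterate_succ]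
      exact ih.comp h6
  refine ⟨fun s => (fun w : ℂ => w ^ 2 * (3 - 2 * w))^[n] (L s), (hφ n).comp hLd, fun s hs => ?_,
    fun p' hp' hne s hs => ?_⟩
  · exact (iter_one n (h3 s hs)).trans_lt hn
  · exact (iter_zero n (h4 p' hp' hne s hs)).trans_lt hn

/-- entire functions which approximate given entire functions near finitely many points -/
theorem exists_glue (S : Finset ℂ) : ∃ ρ : ℝ, 0 < ρ ∧ ∀ (q : ℂ → ℂ → ℂ),
    (∀ p ∈ S, Differentiable ℂ (q p)) → ∀ η : ℝ, 0 < η → ∃ Q : ℂ → ℂ, Differentiable ℂ Q ∧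
      ∀ p ∈ S, ∀ s ∈ ball (0 : ℂ) ρ, ‖Q (p + s) - q p s‖ < η := by
  classical
  rcases S.eq_empty_or_nonempty with rfl | hSne
  · exact ⟨1, one_pos, fun q _ η _ => ⟨fun _ => 0, differentiable_const 0, fun p hp =>
      absurd hp (Finset.notMem_empty p)⟩⟩
  choose ρ hρ hχ using exists_bump S
  obtain ⟨p0, hp0, hmin⟩ := Finset.exists_min_image S ρ hSne
  refine ⟨ρ p0, hρ p0, fun q hq η hη => ?_⟩
  -- a bound
  have hM : ∃ M : ℝ, 0 ≤ M ∧ ∀ p ∈ S, ∀ p' ∈ S, ∀ s ∈ ball (0 : ℂ) (ρ p0),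
      ‖q p (p' + s - p)‖ ≤ M := by
    have h1 : ∀ x : ℂ × ℂ, ∃ M : ℝ, x.1 ∈ S → ∀ s ∈ ball (0 : ℂ) (ρ p0),
        ‖q x.1 (x.2 + s - x.1)‖ ≤ M := by
      rintro ⟨p, p'⟩
      by_cases hp : p ∈ S
      · obtain ⟨M, hM⟩ := (isCompact_closedBall (0 : ℂ) (ρ p0)).exists_bound_of_continuousOn
          (f := fun s => q p (p' + s - p))
          (((hq p hp).continuous.comp (by fun_prop)).continuousOn)
        exact ⟨M, fun _ s hs => hM s (ball_subset_closedBall hs)⟩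
      · exact ⟨0, fun h => absurd h hp⟩
    choose M hM using h1
    refine ⟨∑ x ∈ S ×ˢ S, |M x|, Finset.sum_nonneg fun _ _ => abs_nonneg _,
      fun p hp p' hp' s hs => ?_⟩
    refine (hM (p, p') hp s hs).trans ((le_abs_self _).trans ?_)
    exact Finset.single_le_sum (f := fun x => |M x|) (fun _ _ => abs_nonneg _)
      (Finset.mem_product.2 ⟨hp, hp'⟩)
  obtain ⟨M, hM0, hM⟩ := hM
  set ε : ℝ := η / (2 * (S.card * (M + 1))) with hε
  have hcard : (0 : ℝ) < S.card := by exact_mod_cast hSne.card_pos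
  have hε0 : 0 < ε := by positivity
  choose! χ hχd hχ1 hχ0 using fun p => hχ p ε hε0
  refine ⟨fun s => ∑ p ∈ S, χ p s * q p (s - p), ?_, fun p hp s hs => ?_⟩
  · refine Differentiable.fun_sum fun p hp => (hχd p).mul ((hq p hp).comp (by fun_prop))
  · have h1 : (∑ p' ∈ S, χ p' (p + s) * q p' (p + s - p')) - q p s =
        ∑ p' ∈ S, (χ p' (p + s) - if p' = p then 1 else 0) * q p' (p + s - p') := by
      simp only [sub_mul]
      rw [Finset.sum_sub_distrib]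
      congr 1
      rw [Finset.sum_eq_single_of_mem p hp]
      · rw [if_pos rfl, one_mul, add_sub_cancel_left]
      · intro p' _ hne
        rw [if_neg hne, zero_mul]
    change ‖(∑ p' ∈ S, χ p' (p + s) * q p' (p + s - p')) - q p s‖ < η
    rw [h1]
    have hsp : p + s ∈ ball p (ρ p0) := by
      rw [mem_ball, dist_eq_norm, add_sub_cancel_left]
      rwa [mem_ball_zero_iff] at hs
    have h2 : ∀ p' ∈ S, ‖(χ p' (p + s) - if p' = p then 1 else 0) * q p' (p + s - p')‖ ≤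
        ε * M := by
      intro p' hp'
      rw [norm_mul]
      refine mul_le_mul ?_ (hM p' hp' p hp s hs) (norm_nonneg _) hε0.le
      by_cases hpp : p' = p
      · rw [if_pos hpp, hpp]
        exact (hχ1 p _ (ball_subset_ball (hmin p hp) hsp)).le
      · rw [if_neg hpp, sub_zero]
        exact (hχ0 p' p hp (Ne.symm hpp) _ (ball_subset_ball (hmin p' hp') hsp)).le
    refine (norm_sum_le_of_le _ h2).trans_lt ?_
    rw [Finset.sum_const, nsmul_eq_mul, hε]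
    have h3 : (S.card : ℝ) * (η / (2 * (S.card * (M + 1))) * M) = η / 2 * (M / (M + 1)) := by
      field_simp
    rw [h3]
    have h4 : M / (M + 1) ≤ 1 := by
      rw [div_le_one (by positivity)]
      linarith
    have h5 : η / 2 * (M / (M + 1)) ≤ η / 2 * 1 := by gcongr
    linarith

theorem exists_glue_exp (S : Finset ℂ) : ∃ ρ : ℝ, 0 < ρ ∧ ∀ (q : ℂ → ℂ → ℂ),
    (∀ p ∈ S, Differentiable ℂ (q p)) → ∀ η : ℝ, 0 < η → ∃ Q : ℂ → ℂ, Differentiable ℂ Q ∧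
      ∀ p ∈ S, ∀ s ∈ ball (0 : ℂ) ρ, ‖Complex.exp (Q (p + s)) - Complex.exp (q p s)‖ < η := by
  classical
  obtain ⟨ρ, hρ, h⟩ := exists_glue S
  refine ⟨ρ, hρ, fun q hq η hη => ?_⟩
  have hM : ∃ M : ℝ, 0 < M ∧ ∀ p ∈ S, ∀ s ∈ ball (0 : ℂ) ρ, ‖Complex.exp (q p s)‖ ≤ M := by
    have h1 : ∀ p : ℂ, ∃ M : ℝ, p ∈ S → ∀ s ∈ ball (0 : ℂ) ρ, ‖Complex.exp (q p s)‖ ≤ M := by
      intro p
      by_cases hp : p ∈ S
      · obtain ⟨M, hM⟩ := (isCompact_closedBall (0 : ℂ) ρ).exists_bound_of_continuousOn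
          (f := fun s => Complex.exp (q p s))
          ((Complex.continuous_exp.comp (hq p hp).continuous).continuousOn)
        exact ⟨M, fun _ s hs => hM s (ball_subset_closedBall hs)⟩
      · exact ⟨0, fun h => absurd h hp⟩
    choose M hM using h1
    refine ⟨1 + ∑ x ∈ S, |M x|, by
      have := Finset.sum_nonneg (fun (x : ℂ) (_ : x ∈ S) => abs_nonneg (M x))
      linarith, fun p hp s hs => ?_⟩
    refine (hM p hp s hs).trans ((le_abs_self _).trans ?_)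
    have := Finset.single_le_sum (f := fun x => |M x|) (fun _ _ => abs_nonneg _) hp
    linarith
  obtain ⟨M, hM0, hM⟩ := hM
  obtain ⟨Q, hQ, hQq⟩ := h q hq (min 1 (η / (4 * M))) (by positivity)
  refine ⟨Q, hQ, fun p hp s hs => ?_⟩
  have h1 := hQq p hp s hs
  have h2 := Complex.norm_exp_sub_one_le (h1.le.trans (min_le_left _ _))
  have h3 : Complex.exp (Q (p + s)) - Complex.exp (q p s) =
      Complex.exp (q p s) * (Complex.exp (Q (p + s) - q p s) - 1) := by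
    rw [mul_sub, mul_one, ← Complex.exp_add]
    congr 2
    ring
  rw [h3, norm_mul]
  have h4 := h1.le.trans (min_le_right _ _)
  calc ‖Complex.exp (q p s)‖ * ‖Complex.exp (Q (p + s) - q p s) - 1‖
      ≤ M * (2 * ‖Q (p + s) - q p s‖) := by
        have := hM p hp s hs
        gcongr
    _ ≤ M * (2 * (η / (4 * M))) := by gcongr
    _ = η / 2 := by
        field_simp
        ring
    _ < η := by linarith

/-- the shifts of a universal family -/
theorem universal_shifts {ι : Type} {u : ι → ℂ → ℂ} (hu : UniversalOn u) : ∃ r : ℝ, 0 < r ∧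
    ∀ S : Finset ℂ, (∀ p ∈ S, ‖p‖ < r) →
      UniversalOn fun (x : S × ι) (z : ℂ) => u x.2 (z + x.1) := by
  classical
  obtain ⟨r, hr, hur⟩ := hu
  refine ⟨r, hr, fun S hS => ?_⟩
  obtain ⟨ρ, hρ, hglue⟩ := exists_glue_exp S
  obtain ⟨r', hr'0, hr'ρ, hr'⟩ : ∃ r' : ℝ, 0 < r' ∧ r' ≤ ρ ∧ ∀ p ∈ S, ‖p‖ + r' ≤ r := by
    rcases S.eq_empty_or_nonempty with rfl | hSne
    · exact ⟨ρ, hρ, le_rfl, fun p hp => absurd hp (Finset.notMem_empty p)⟩
    obtain ⟨p0, hp0, hmax⟩ := Finset.exists_max_image S (fun p => ‖p‖) hSne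
    have h1 := hS p0 hp0
    refine ⟨min ρ (r - ‖p0‖), lt_min hρ (by linarith), min_le_left _ _, fun p hp => ?_⟩
    have h2 := hmax p hp
    have h3 := min_le_right ρ (r - ‖p0‖)
    linarith
  refine ⟨r', hr'0, fun q hq ε hε => ?_⟩
  let q' : ι → ℂ → ℂ → ℂ := fun j p => if h : p ∈ S then q (⟨p, h⟩, j) else fun _ => 0
  have hq' : ∀ j, ∀ p ∈ S, Differentiable ℂ (q' j p) := by
    intro j p hp
    simp only [q', dif_pos hp]
    exact hq _
  choose Q hQ hQq using fun j => hglue (q' j) (hq' j) (ε / 2) (by positivity)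
  obtain ⟨c, hc⟩ := hur Q hQ (ε / 2) (by positivity)
  refine ⟨c, fun x => ⟨?_, fun s hs => ?_⟩⟩
  · have h1 := hr' x.1 x.1.2
    refine (hc x.2).1.comp (by fun_prop) fun z hz => ?_
    rw [mem_ball, dist_eq_norm] at hz ⊢
    calc ‖z + x.1 - c‖ = ‖(z - c) + (x.1 : ℂ)‖ := by congr 1; ring
      _ ≤ ‖z - c‖ + ‖(x.1 : ℂ)‖ := norm_add_le _ _
      _ < r := by linarith
  · have h1 := hr' x.1 x.1.2
    rw [mem_ball_zero_iff] at hs
    have h2 := (hc x.2).2 (x.1 + s) (by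
      rw [mem_ball_zero_iff]
      calc ‖(x.1 : ℂ) + s‖ ≤ ‖(x.1 : ℂ)‖ + ‖s‖ := norm_add_le _ _
        _ < r := by linarith)
    have h3 := hQq x.2 x.1 x.1.2 s (by rw [mem_ball_zero_iff]; linarith)
    have h4 : q' x.2 x.1 = q x := by
      simp only [q', dif_pos x.1.2]
    rw [h4] at h3
    have h5 : c + s + (x.1 : ℂ) = c + (x.1 + s) := by ring
    change ‖u x.2 (c + s + x.1) - Complex.exp (q x s)‖ < ε
    rw [h5]
    calc ‖u x.2 (c + (x.1 + s)) - Complex.exp (q x s)‖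
        = ‖(u x.2 (c + (x.1 + s)) - Complex.exp (Q x.2 (x.1 + s))) +
          (Complex.exp (Q x.2 (x.1 + s)) - Complex.exp (q x s))‖ := by congr 1; ring
      _ ≤ _ := norm_add_le _ _
      _ < ε := by linarith

end Pool.Agent.X316.ZE
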