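import Pool.Agent.X316.ZE.Pub
import Pool.Agent.Y719.LC.Ent
import Pool.Agent.TH143.GE.Iff

/-!
Sequences on elliptic curves: if the sequences with coordinates in finitely generated fields of
coefficients of transcendence degree one are eventually periodic, then the nonconstant maps from tori
lie in `V(I')`.
-/

set_option autoImplicit false

open Filter Topology Set MvPolynomial Metric

namespace Pool.Agent.X316.ZE

open scoped LinearAlgebra.Projectivization
open Pool.Agent.TH143.EL (HolMap Rep InV TrOne Ell trOne_ell TorusMapsIn ratCurves_of_torus inV_iff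
  rep_rep mero_ne ell_dep codis_ev inV_of_punct rep_eq' nc_wp nc_poly NC mero_poly mero_eval)
open Pool.Agent.TH143.HE (RatCurvesIn IsPtP)
open Pool.Agent.TH143.DE (CoefField CoefRing TrLe LinRec)
open Pool.Agent.TH143.TW (Per)
open Pool.Agent.TH143.GE (FinGen)
open Pool.Agent.Y719.LC (cI inV_cI ell_rat)

variable {N : ℕ} {R : Type} [CommRing R]

/-- a set which is invariant under the lattice -/
def Inv (ω₁ ω₂ : ℂ) (S : Set ℂ) : Prop := (∀ z, z + ω₁ ∈ S ↔ z ∈ S) ∧ ∀ z, z + ω₂ ∈ S ↔ z ∈ S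

theorem Inv.int {ω₁ ω₂ : ℂ} {S : Set ℂ} (h : Inv ω₁ ω₂ S) (m n : ℤ) (z : ℂ) :
    z + (m * ω₁ + n * ω₂) ∈ S ↔ z ∈ S := by
  have key : ∀ ω : ℂ, (∀ z, z + ω ∈ S ↔ z ∈ S) → ∀ (k : ℕ) (z : ℂ), z + k * ω ∈ S ↔ z ∈ S := by
    intro ω hω k
    induction k with
    | zero => intro z; simp
    | succ k ih =>
      intro z
      have e1 : z + (k + 1 : ℕ) * ω = z + k * ω + ω := by
        push_cast
        ring
      rw [e1, hω, ih]
  have key' : ∀ ω : ℂ, (∀ z, z + ω ∈ S ↔ z ∈ S) → ∀ (k : ℤ) (z : ℂ), z + k * ω ∈ S ↔ z ∈ S := by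
    intro ω hω k z
    obtain ⟨k, rfl | rfl⟩ := k.eq_nat_or_neg
    · exact_mod_cast key ω hω k z
    · have h1 := key ω hω k (z + ((-(k : ℤ) : ℤ) : ℂ) * ω)
      rw [← h1]
      have e1 : z + ((-(k : ℤ) : ℤ) : ℂ) * ω + k * ω = z := by
        push_cast
        ring
      rw [e1]
  rw [← add_assoc, key' ω₂ h.2, key' ω₁ h.1]

/-- the multiples of `z₀` are different modulo the lattice -/
def Free (ω₁ ω₂ z0 : ℂ) : Prop := ∀ (k : ℤ) (m n : ℤ), (k : ℂ) * z0 = m * ω₁ + n * ω₂ → k = 0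

theorem exists_free {ω₁ ω₂ : ℂ} (hind : LinearIndependent ℝ ![ω₁, ω₂]) :
    ∃ z0, Free ω₁ ω₂ z0 := by
  refine ⟨((Real.sqrt 2 : ℝ) : ℂ) * ω₁, fun k m n h => ?_⟩
  rw [LinearIndependent.pair_iff] at hind
  have h1 := hind (k * Real.sqrt 2 - m) (-n) (by
    rw [Complex.real_smul, Complex.real_smul]
    push_cast
    linear_combination h)
  by_contra hk
  have h2 : (k : ℝ) * Real.sqrt 2 = m := by linarith [h1.1]
  have h3 : Irrational ((k : ℝ) * Real.sqrt 2) := irrational_sqrt_two.intCast_mul hk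
  rw [h2] at h3
  exact h3 ⟨m, by simp⟩

/-- the multiples of `z₀` enter every invariant codiscrete set -/
theorem ev_inv {ω₁ ω₂ z0 : ℂ} (hind : LinearIndependent ℝ ![ω₁, ω₂]) (h0 : Free ω₁ ω₂ z0)
    {S : Set ℂ} (hS : S ∈ codiscrete ℂ) (hinv : Inv ω₁ ω₂ S) :
    ∀ᶠ m : ℕ in atTop, (m : ℂ) * z0 ∈ S := by
  classical
  set r := ‖ω₁‖ + ‖ω₂‖ with hr
  have hfin : (Sᶜ ∩ closedBall (0 : ℂ) r).Finite := by
    have h1 : IsCompact (Sᶜ ∩ closedBall (0 : ℂ) r) :=
      (isCompact_closedBall (0 : ℂ) r).inter_left (mem_codiscrete'.1 hS).1.isClosed_compl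
    exact h1.finite ((mem_codiscrete'.1 hS).2.mono inter_subset_left)
  choose a b hab using fun m : ℕ => Pool.Agent.TH143.EL.exists_shift hind ((m : ℂ) * z0)
  let p : ℕ → ℂ := fun m => (m : ℂ) * z0 + (a m * ω₁ + b m * ω₂)
  have hinj : Function.Injective p := by
    intro m n hmn
    have h1 : (m : ℂ) * z0 + (a m * ω₁ + b m * ω₂) = (n : ℂ) * z0 + (a n * ω₁ + b n * ω₂) := hmn
    have h2 := h0 ((m : ℤ) - n) (a n - a m) (b n - b m) (by
      push_cast
      linear_combination h1)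
    omega
  have h1 : {m : ℕ | p m ∈ Sᶜ ∩ closedBall (0 : ℂ) r}.Finite := hfin.preimage hinj.injOn
  have h2 : ∀ᶠ m : ℕ in atTop, m ∉ {m : ℕ | p m ∈ Sᶜ ∩ closedBall (0 : ℂ) r} := by
    have h3 := h1.compl_mem_cofinite
    rw [Nat.cofinite_eq_atTop] at h3
    exact h3
  filter_upwards [h2] with m hm
  by_contra hmS
  apply hm
  refine ⟨fun h3 => hmS ((hinv.int (a m) (b m) _).1 h3), ?_⟩
  rw [mem_closedBall_zero_iff]
  exact hab m

theorem inv_of_ell {ω₁ ω₂ : ℂ} {g : ℂ → ℂ} (hg : g ∈ Ell ω₁ ω₂) (T : Set ℂ) :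
    Inv ω₁ ω₂ {z | g z ∈ T} :=
  ⟨fun z => by rw [mem_ofPred_eq, mem_ofPred_eq, hg.2.1], fun z => by
    rw [mem_ofPred_eq, mem_ofPred_eq, hg.2.2]⟩

/-- the field of the elliptic functions at the multiples of `z₀` -/
def elB (ω₁ ω₂ z0 : ℂ) : Subalgebra ℂ (ℕ → ℂ) where
  carrier := {b | ∃ g ∈ Ell ω₁ ω₂, ∀ᶠ m : ℕ in atTop, b m = g (m * z0)}
  mul_mem' := by
    rintro a b ⟨g, hg, h1⟩ ⟨g', hg', h2⟩
    refine ⟨g * g', mul_mem hg hg', ?_⟩
    filter_upwards [h1, h2] with m h3 h4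
    rw [Pi.mul_apply, Pi.mul_apply, h3, h4]
  add_mem' := by
    rintro a b ⟨g, hg, h1⟩ ⟨g', hg', h2⟩
    refine ⟨g + g', add_mem hg hg', ?_⟩
    filter_upwards [h1, h2] with m h3 h4
    rw [Pi.add_apply, Pi.add_apply, h3, h4]
  algebraMap_mem' := fun c => ⟨algebraMap ℂ _ c, Subalgebra.algebraMap_mem _ _,
    Eventually.of_forall fun _ => rfl⟩

theorem ell_dich {ω₁ ω₂ z0 : ℂ} (hind : LinearIndependent ℝ ![ω₁, ω₂]) (h0 : Free ω₁ ω₂ z0)
    {g : ℂ → ℂ} (hg : g ∈ Ell ω₁ ω₂) : ((∀ᶠ z in codiscrete ℂ, g z = 0) ∧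
      ∀ᶠ m : ℕ in atTop, g (m * z0) = 0) ∨ ((∀ᶠ z in codiscrete ℂ, g z ≠ 0) ∧
      ∀ᶠ m : ℕ in atTop, g (m * z0) ≠ 0) := by
  by_cases h1 : ∀ᶠ z in codiscrete ℂ, g z = 0
  · exact Or.inl ⟨h1, ev_inv hind h0 h1 (inv_of_ell hg {0})⟩
  · have h2 := mero_ne hg.1 h1
    exact Or.inr ⟨h2, ev_inv hind h0 h2 (inv_of_ell hg {0}ᶜ)⟩

theorem elB_field {ω₁ ω₂ z0 : ℂ} (hind : LinearIndependent ℝ ![ω₁, ω₂]) (h0 : Free ω₁ ω₂ z0) :
    CoefField (elB ω₁ ω₂ z0) where
  shift := by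
    rintro b ⟨g, hg, h1⟩
    refine ⟨fun z => g (z + z0), ⟨?_, fun z => ?_, fun z => ?_⟩, ?_⟩
    · intro z
      exact MeromorphicAt.comp_analyticAt (f := g) (g := fun z : ℂ => z + z0) (hg.1 (z + z0))
        (by fun_prop)
    · change g (z + ω₁ + z0) = g (z + z0)
      rw [add_right_comm, hg.2.1]
    · change g (z + ω₂ + z0) = g (z + z0)
      rw [add_right_comm, hg.2.2]
    · filter_upwards [(tendsto_add_atTop_nat 1).eventually h1] with m hm
      rw [hm]
      congr 1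
      push_cast
      ring
  dich := by
    rintro b ⟨g, hg, h1⟩
    rcases ell_dich hind h0 hg with ⟨-, h2⟩ | ⟨-, h2⟩
    · left
      filter_upwards [h1, h2] with m h3 h4
      rw [h3, h4]
    · right
      filter_upwards [h1, h2] with m h3 h4
      rw [h3]
      exact h4
  inv := by
    rintro b ⟨g, hg, h1⟩
    refine ⟨g⁻¹, ⟨hg.1.inv, fun z => ?_, fun z => ?_⟩, ?_⟩
    · rw [Pi.inv_apply, Pi.inv_apply, hg.2.1]
    · rw [Pi.inv_apply, Pi.inv_apply, hg.2.2]
    · filter_upwards [h1] with m hm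
      rw [hm, Pi.inv_apply]

theorem elB_trLe {ω₁ ω₂ z0 : ℂ} (hind : LinearIndependent ℝ ![ω₁, ω₂]) (h0 : Free ω₁ ω₂ z0) :
    TrLe (elB ω₁ ω₂ z0) 1 := by
  intro b hb
  choose g hg hgb using hb
  obtain ⟨P, hP0, hP⟩ := ell_dep hind (hg 0) (hg 1)
  refine ⟨P, hP0, ?_⟩
  have h1 := ev_inv hind h0 hP (by
    constructor
    · intro z
      rw [mem_ofPred_eq, mem_ofPred_eq, (hg 0).2.1, (hg 1).2.1]
    · intro z
      rw [mem_ofPred_eq, mem_ofPred_eq, (hg 0).2.2, (hg 1).2.2])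
  filter_upwards [h1, hgb 0, hgb 1] with m h2 h3 h4
  have h5 : (fun i => b i m) = ![g 0 (m * z0), g 1 (m * z0)] := by
    funext i
    fin_cases i
    · exact h3
    · exact h4
  rw [h5]
  exact h2

theorem elB_finGen {ω₁ ω₂ z0 : ℂ} (hind : LinearIndependent ℝ ![ω₁, ω₂])
    (h0 : Free ω₁ ω₂ z0) : FinGen (elB ω₁ ω₂ z0) := by
  let L : PeriodPair := ⟨ω₁, ω₂, hind⟩
  have hp1 : ∀ z, L.weierstrassP (z + ω₁) = L.weierstrassP z := fun z =>
    L.weierstrassP_add_coe z ⟨ω₁, L.ω₁_mem_lattice⟩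
  have hp2 : ∀ z, L.weierstrassP (z + ω₂) = L.weierstrassP z := fun z =>
    L.weierstrassP_add_coe z ⟨ω₂, L.ω₂_mem_lattice⟩
  have hd1 : ∀ z, L.derivWeierstrassP (z + ω₁) = L.derivWeierstrassP z := fun z =>
    L.derivWeierstrassP_add_coe z ⟨ω₁, L.ω₁_mem_lattice⟩
  have hd2 : ∀ z, L.derivWeierstrassP (z + ω₂) = L.derivWeierstrassP z := fun z =>
    L.derivWeierstrassP_add_coe z ⟨ω₂, L.ω₂_mem_lattice⟩
  have hpE : L.weierstrassP ∈ Ell ω₁ ω₂ := ⟨L.meromorphic_weierstrassP, hp1, hp2⟩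
  have hdE : L.derivWeierstrassP ∈ Ell ω₁ ω₂ := ⟨L.meromorphic_derivWeierstrassP, hd1, hd2⟩
  let a : ℕ → ℂ := fun m => L.weierstrassP (m * z0)
  let b : ℕ → ℂ := fun m => L.derivWeierstrassP (m * z0)
  refine ⟨{a, b}, Set.toFinite _, ?_, ?_⟩
  · rintro x (rfl | rfl)
    · exact ⟨_, hpE, Eventually.of_forall fun _ => rfl⟩
    · exact ⟨_, hdE, Eventually.of_forall fun _ => rfl⟩
  · rintro c ⟨g, hg, hc⟩
    obtain ⟨P, Q, C, hC, hrel⟩ := ell_rat L (h := g) hg
    have ha : a ∈ Algebra.adjoin ℂ ({a, b} : Set (ℕ → ℂ)) :=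
      Algebra.subset_adjoin (Set.mem_insert _ _)
    have hb : b ∈ Algebra.adjoin ℂ ({a, b} : Set (ℕ → ℂ)) :=
      Algebra.subset_adjoin (Set.mem_insert_of_mem _ rfl)
    have hpol : ∀ P : Polynomial ℂ, (fun m => P.eval (a m)) ∈
        Algebra.adjoin ℂ ({a, b} : Set (ℕ → ℂ)) := by
      intro P
      have h1 : (fun m => P.eval (a m)) = Polynomial.aeval a P := by
        funext m
        have h2 := Polynomial.aeval_algHom_apply (Pi.evalAlgHom ℂ (fun _ : ℕ => ℂ) m) a P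
        rw [Pi.evalAlgHom_apply, Pi.evalAlgHom_apply] at h2
        rw [← h2, Polynomial.coe_aeval_eq_eval]
      change (fun m => P.eval (a m)) ∈ _
      rw [h1]
      exact (Algebra.adjoin_mono (Set.singleton_subset_iff.2 (Set.mem_insert _ _)))
        (Polynomial.aeval_mem_adjoin_singleton _ _)
    have hinv : Inv ω₁ ω₂ {z | C.eval (L.weierstrassP z) * g z = P.eval (L.weierstrassP z) +
        Q.eval (L.weierstrassP z) * L.derivWeierstrassP z} := by
      constructor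
      · intro z
        rw [mem_ofPred_eq, mem_ofPred_eq, hp1, hd1, hg.2.1]
      · intro z
        rw [mem_ofPred_eq, mem_ofPred_eq, hp2, hd2, hg.2.2]
    have h1 := ev_inv hind h0 hrel hinv
    have hCE : (fun z => C.eval (L.weierstrassP z)) ∈ Ell ω₁ ω₂ :=
      ⟨mero_poly hpE.1 C, fun z => by
        change C.eval (L.weierstrassP (z + ω₁)) = _
        rw [hp1], fun z => by
        change C.eval (L.weierstrassP (z + ω₂)) = _
        rw [hp2]⟩
    have h2 : ∀ᶠ m : ℕ in atTop, C.eval (L.weierstrassP (m * z0)) ≠ 0 := by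
      rcases ell_dich hind h0 hCE with ⟨h3, -⟩ | ⟨-, h3⟩
      · exact absurd (nc_poly hpE.1 (nc_wp L) h3) hC
      · exact h3
    refine ⟨fun m => P.eval (a m) + Q.eval (a m) * b m, ?_, fun m => C.eval (a m), hpol C, h2, ?_⟩
    · exact add_mem (hpol P) (mul_mem (hpol Q) hb)
    · filter_upwards [h1, hc] with m h3 h4
      rw [h4, mul_comm]
      exact h3

/-- **From sequences to tori.** -/
theorem torus_of_fields {σ : R →+* ℂ} {I I' : Ideal (MvPolynomial (Fin (N + 1)) R)}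
    (h : ∀ B : Subalgebra ℂ (ℕ → ℂ), CoefField B → FinGen B → TrLe B 1 →
      ∀ x : ℕ → Fin (N + 1) → ℂ, (∀ᶠ m in atTop, x m ≠ 0) → (∀ j, (fun m => x m j) ∈ B) →
      (∀ᶠ m in atTop, IsPtP σ I (x m)) → (∀ᶠ m in atTop, ¬ IsPtP σ I' (x m)) → Per x) :
    TorusMapsIn (cI σ I) (cI σ I') := by
  classical
  intro ω₁ ω₂ hind f hf h1 h2 hI hnc
  by_contra hcon
  obtain ⟨z0, h0⟩ := exists_free hind
  obtain ⟨g, hg, hr⟩ := Pool.Agent.TH600.LK.torus_coords_ell hf h1 h2
  have hg1 : ∀ z, g (z + ω₁) = g z := fun z => funext fun j => (hg j).2.1 z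
  have hg2 : ∀ z, g (z + ω₂) = g z := fun z => funext fun j => (hg j).2.2 z
  have hrm := ev_inv hind h0 hr (by
    constructor
    · intro z
      rw [mem_ofPred_eq, mem_ofPred_eq, h1, hg1]
    · intro z
      rw [mem_ofPred_eq, mem_ofPred_eq, h2, hg2])
  have hformE : ∀ G : MvPolynomial (Fin (N + 1)) ℂ, (fun z => eval (g z) G) ∈ Ell ω₁ ω₂ := fun G =>
    ⟨mero_eval (fun j => (hg j).1) G, fun z => by
      change eval (g (z + ω₁)) G = _
      rw [hg1], fun z => by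
      change eval (g (z + ω₂)) G = _
      rw [hg2]⟩
  -- the forms
  obtain ⟨z1, G, hG, hGh, hGne⟩ : ∃ z1, ∃ G ∈ cI σ I', (∃ d, G.IsHomogeneous d) ∧
      eval (f z1).rep G ≠ 0 := by
    by_contra h3
    push Not at h3
    exact hcon fun z G hG hGh => h3 z G hG hGh
  have hGm : ∀ᶠ m : ℕ in atTop, eval (g (m * z0)) G ≠ 0 := by
    rcases ell_dich hind h0 (hformE G) with ⟨h3, -⟩ | ⟨-, h3⟩
    · exfalso
      have h4 : InV (Ideal.span {G}) (f z1) := by
        apply inV_of_punct hf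
        filter_upwards [codis_ev h3 z1, codis_ev hr z1] with z h5 h6
        rw [inV_iff h6]
        intro G' hG' _
        obtain ⟨H, rfl⟩ := Ideal.mem_span_singleton'.1 hG'
        rw [map_mul]
        change _ * eval (g z) G = 0
        rw [h5, mul_zero]
      exact hGne (h4 G (Ideal.mem_span_singleton_self G) hGh)
    · exact h3
  obtain ⟨k, m0, hk, hper⟩ := h (elB ω₁ ω₂ z0) (elB_field hind h0) (elB_finGen hind h0)
    (elB_trLe hind h0) (fun m => g (m * z0)) (hrm.mono fun m hm => hm.1)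
    (fun j => ⟨fun z => g z j, hg j, Eventually.of_forall fun _ => rfl⟩)
    (hrm.mono fun m hm => (inV_cI hm).1 (hI _))
    (hGm.mono fun m hm h3 => by
      have h4 : ∀ G ∈ cI σ I', (∃ d, G.IsHomogeneous d) → eval (g (m * z0)) G = 0 :=
        Pool.Agent.Y719.LC.ptP_cI.2 h3
      exact hm (h4 G hG hGh))
  -- a point
  obtain ⟨m1, hm1⟩ := eventually_atTop.1 hrm
  set M := max m0 m1 with hM
  set c := g (M * z0) with hc
  have hc0 : c ≠ 0 := (hm1 M (le_max_right _ _)).1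
  have hprop : ∀ n : ℕ, ∀ i j, g ((M + n * k : ℕ) * z0) i * c j = g ((M + n * k : ℕ) * z0) j * c i := by
    intro n
    induction n with
    | zero =>
      intro i j
      rw [zero_mul, add_zero, ← hc, mul_comm]
    | succ n ih =>
      intro i j
      have e1 : M + (n + 1) * k = M + n * k + k := by ring
      rw [e1]
      have h3 := hper (M + n * k) (le_trans (le_max_left _ _) (Nat.le_add_right _ _))
      have h4 : g ((M + n * k : ℕ) * z0) ≠ 0 :=
        (hm1 (M + n * k) (le_trans (le_max_right _ _) (Nat.le_add_right _ _))).1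
      obtain ⟨l, hl⟩ := Function.ne_iff.1 h4
      have hl' : g ((M + n * k : ℕ) * z0) l ≠ 0 := hl
      apply mul_right_cancel₀ hl'
      have e2 := h3 i l
      have e3 := h3 j l
      have e4 := ih l i
      have e5 := ih l j
      linear_combination c j * e2 - c i * e3 + g ((M + n * k + k : ℕ) * z0) l * (ih i j)
  have hconst : ∀ i j, ∀ᶠ z in codiscrete ℂ, g z i * c j - g z j * c i = 0 := by
    intro i j
    have hE : (fun z => g z i * c j - g z j * c i) ∈ Ell ω₁ ω₂ := by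
      refine ⟨((hg i).1.mul (Meromorphic.const _)).sub ((hg j).1.mul (Meromorphic.const _)),
        fun z => ?_, fun z => ?_⟩
      · change g (z + ω₁) i * c j - g (z + ω₁) j * c i = _
        rw [hg1]
      · change g (z + ω₂) i * c j - g (z + ω₂) j * c i = _
        rw [hg2]
    rcases ell_dich hind h0 hE with ⟨h3, -⟩ | ⟨-, h3⟩
    · exact h3
    · exfalso
      obtain ⟨m2, hm2⟩ := eventually_atTop.1 h3
      have h4 := hm2 (M + m2 * k) (by nlinarith)
      apply h4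
      have h5 := hprop m2 i j
      rw [sub_eq_zero]
      exact h5
  -- the curve is constant
  let J : Ideal (MvPolynomial (Fin (N + 1)) ℂ) :=
    Ideal.span (Set.range fun x : Fin (N + 1) × Fin (N + 1) =>
      (X x.1 * C (c x.2) - X x.2 * C (c x.1) : MvPolynomial (Fin (N + 1)) ℂ))
  have hJ : ∀ z, InV J (f z) := by
    intro z
    apply inV_of_punct hf
    have h3 : ∀ᶠ z in codiscrete ℂ, ∀ i j, g z i * c j - g z j * c i = 0 :=
      eventually_all.2 fun i => eventually_all.2 fun j => hconst i j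
    filter_upwards [codis_ev h3 z, codis_ev hr z] with y h4 h5
    rw [inV_iff h5]
    intro H hH _
    have h6 : J ≤ RingHom.ker (eval (g y)) := by
      change Ideal.span _ ≤ _
      rw [Ideal.span_le]
      rintro _ ⟨x, rfl⟩
      change eval (g y) (X x.1 * C (c x.2) - X x.2 * C (c x.1)) = 0
      rw [map_sub, map_mul, map_mul, eval_X, eval_X, eval_C, eval_C]
      exact h4 x.1 x.2
    exact h6 hH
  have hall : ∀ z i j, (f z).rep i * c j = (f z).rep j * c i := by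
    intro z i j
    have h3 := hJ z (X i * C (c j) - X j * C (c i)) (Ideal.subset_span ⟨(i, j), rfl⟩)
      ⟨1, ((isHomogeneous_X ℂ i).mul (isHomogeneous_C _ _)).sub
        ((isHomogeneous_X ℂ j).mul (isHomogeneous_C _ _))⟩
    rw [map_sub, map_mul, map_mul, eval_X, eval_X, eval_C, eval_C, sub_eq_zero] at h3
    exact h3
  obtain ⟨z, w, hzw⟩ := hnc
  apply hzw
  refine rep_eq' (rep_rep (f z)) (rep_rep (f w)) fun i j => ?_
  obtain ⟨l, hl⟩ := Function.ne_iff.1 hc0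
  have hl' : c l ≠ 0 := hl
  have e1 := hall z i l
  have e2 := hall z j l
  have e3 := hall w i l
  have e4 := hall w j l
  apply mul_right_cancel₀ (mul_ne_zero hl' hl')
  calc (f z).rep i * (f w).rep j * (c l * c l) = ((f z).rep i * c l) * ((f w).rep j * c l) := by ring
    _ = ((f z).rep j * c l) * ((f w).rep i * c l) := by rw [e1, e2, e3, e4]; ring
    _ = _ := by ring

end Pool.Agent.X316.ZE
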