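import Pool.Agent.X316.ZE.Shift

/-!
Approximation of the derivatives of a universal family on small discs, with several distinguished
functions. Adapted from `Pool.Agent.X316.ZG.Uni`.
-/

set_option autoImplicit false

open Filter Topology Metric Set Polynomial

namespace Pool.Agent.X316.ZE

open Pool.Agent.X316.ZG

variable {ι : Type} [Finite ι]

theorem exists_shift' {u : ι → ℂ → ℂ} (hu : UniversalOn u) (D : ι → Prop) {m n : ℕ} (hmn : m < n)
    (a : ι → ℕ → ℂ) (ha : ∀ j, ¬ D j ∨ 0 < m → a j 0 ≠ 0) {R ε : ℝ} (hR : 0 < R) (hε : 0 < ε) :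
    ∃ (c : ℂ) (δ : ℝ), 0 < δ ∧ δ * (R + 2) < ε ∧ (∀ j, DifferentiableOn ℂ (u j) (ball c (δ * (R + 1)))) ∧
      ∀ t : ℂ, ‖t‖ < R →
        (∀ j i, i < n → ¬ D j ∨ i < m → ‖iteratedDeriv i (u j) (c + δ * t) - a j i‖ < ε) ∧
        ∀ j, D j → ‖iteratedDeriv m (u j) (c + δ * t) - Complex.exp t‖ < ε := by
  classical
  obtain ⟨r, hr, hur⟩ := hu
  let P : ι → ℂ[X] := fun j => if D j then tp (a j) m else tp (a j) n
  let κ : ι → ℂ := fun j => if D j then 1 else 0
  let M : ι → ℕ := fun j => if D j then m else n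
  have hP0 : ∀ j i, i < n → ¬ D j ∨ i < m →
      (Polynomial.derivative^[i] (P j)).eval 0 = a j i := by
    intro j i hi hji
    by_cases hj : D j
    · simp only [P, if_pos hj]
      exact tp_eval _ _ _ (hji.resolve_left (not_not.2 hj))
    · simp only [P, if_neg hj]
      exact tp_eval _ _ _ hi
  have hMi : ∀ j i, i < n → ¬ D j ∨ i < m → i ≤ M j := by
    intro j i hi hji
    by_cases hj : D j
    · simp only [M, if_pos hj]
      exact (hji.resolve_left (not_not.2 hj)).le
    · simp only [M, if_neg hj]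
      exact hi.le
  -- a small disc
  have hev : ∀ᶠ s : ℂ in 𝓝 0, (∀ j, ∀ i ∈ Finset.range n, ¬ D j ∨ i < m →
      ‖(Polynomial.derivative^[i] (P j)).eval s - a j i‖ < ε / 4) ∧
      ∀ j, ¬ D j ∨ 0 < m → ‖(P j).eval s - a j 0‖ < ‖a j 0‖ / 2 := by
    refine Filter.Eventually.and ?_ ?_
    · rw [eventually_all]
      intro j
      rw [Filter.eventually_all_finset]
      intro i hi
      by_cases hji : ¬ D j ∨ i < m
      · have h1 : Continuous fun s : ℂ => ‖(Polynomial.derivative^[i] (P j)).eval s - a j i‖ := by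
          fun_prop
        have h2 := h1.tendsto 0
        rw [hP0 j i (Finset.mem_range.1 hi) hji, sub_self, norm_zero] at h2
        filter_upwards [h2.eventually (gt_mem_nhds (show (0 : ℝ) < ε / 4 by positivity))]
          with s hs _
        exact hs
      · exact Eventually.of_forall fun s h => absurd h hji
    · rw [eventually_all]
      intro j
      by_cases hji : ¬ D j ∨ 0 < m
      · have h1 : Continuous fun s : ℂ => ‖(P j).eval s - a j 0‖ := by fun_prop
        have h2 := h1.tendsto 0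
        have h3 := hP0 j 0 (by omega) hji
        rw [Function.iterate_zero, id_eq] at h3
        rw [h3, sub_self, norm_zero] at h2
        have h4 : 0 < ‖a j 0‖ / 2 := by
          have := norm_pos_iff.2 (ha j hji)
          positivity
        filter_upwards [h2.eventually (gt_mem_nhds h4)] with s hs _
        exact hs
      · exact Eventually.of_forall fun s h => absurd h hji
  obtain ⟨ρ, hρ, hρs⟩ := Metric.eventually_nhds_iff_ball.1 hev
  -- the choice of `δ`
  have hE : 0 < Real.exp (R + 2) := Real.exp_pos _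
  obtain ⟨δ, hδ0, hδ1, hδρ, hδr, hδε, hδa, hδR⟩ : ∃ δ : ℝ, 0 < δ ∧ δ ≤ 1 ∧ δ * (R + 2) < ρ ∧
      δ * (R + 2) < r ∧ δ * Real.exp (R + 2) < ε / 4 ∧
      (∀ j, D j → 0 < m → δ * Real.exp (R + 2) < ‖a j 0‖ / 2) ∧ δ * (R + 2) < ε := by
    have h1 : ∀ (c b : ℝ), 0 < b → ∀ᶠ δ : ℝ in 𝓝[>] 0, δ * c < b := by
      intro c b hb
      have h2 : Tendsto (fun δ : ℝ => δ * c) (𝓝[>] 0) (𝓝 (0 * c)) :=
        ((continuous_id.mul continuous_const).tendsto 0).mono_left nhdsWithin_le_nhds
      rw [zero_mul] at h2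
      exact h2.eventually (gt_mem_nhds hb)
    have h5 : ∀ᶠ δ : ℝ in 𝓝[>] 0, ∀ j, D j → 0 < m → δ * Real.exp (R + 2) < ‖a j 0‖ / 2 := by
      rw [eventually_all]
      intro j
      by_cases hm : 0 < m
      · have h6 : 0 < ‖a j 0‖ / 2 := by
          have := norm_pos_iff.2 (ha j (Or.inr hm))
          positivity
        filter_upwards [h1 _ _ h6] with δ h _ _
        exact h
      · exact Eventually.of_forall fun _ _ h => absurd h hm
    have h0 : ∀ᶠ δ : ℝ in 𝓝[>] 0, 0 < δ := eventually_mem_nhdsWithin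
    obtain ⟨δ, ⟨⟨⟨⟨⟨⟨h7, h8⟩, h9⟩, h10⟩, h11⟩, h12⟩, h13⟩⟩ := ((((((h0.and (h1 1 1 one_pos)).and
      (h1 (R + 2) ρ hρ)).and (h1 (R + 2) r hr)).and (h1 _ (ε / 4) (by positivity))).and h5).and
      (h1 (R + 2) ε hε)).exists
    exact ⟨δ, h7, by linarith, h9, h10, h11, h12, h13⟩
  have hδC : (δ : ℂ) ≠ 0 := by exact_mod_cast hδ0.ne'
  let g : ι → ℂ → ℂ := fun j => tg (P j) (κ j) δ (M j)
  have hg : ∀ j, Differentiable ℂ (g j) := fun j => tg_diff _ _ _ _
  have hexpn : ∀ s : ℂ, ‖s‖ ≤ δ * (R + 2) → ‖Complex.exp ((δ : ℂ)⁻¹ * s)‖ ≤ Real.exp (R + 2) := by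
    intro s hs
    rw [Complex.norm_exp, Real.exp_le_exp]
    refine (Complex.re_le_norm _).trans ?_
    rw [norm_mul, norm_inv, Complex.norm_real, Real.norm_of_nonneg hδ0.le, inv_mul_le_iff₀ hδ0]
    exact hs
  set η : ℝ := ε / (8 * n.factorial * (2 / δ) ^ n) with hηdef
  have hη : 0 < η := by positivity
  have hρ01 : δ * (R + 1) < δ * (R + 2) := by nlinarith
  have hρ00 : 0 ≤ δ * (R + 1) := by positivity
  -- exponentials of entire functions
  have hq : ∀ j, ∃ q : ℂ → ℂ, Differentiable ℂ q ∧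
      ∀ s ∈ ball (0 : ℂ) (δ * (R + 1)), ‖Complex.exp (q s) - g j s‖ < η := by
    intro j
    by_cases hji : ¬ D j ∨ 0 < m
    · refine approx_exp (ha j hji) hρ00 hρ01 (hg j).differentiableOn (fun s hs => ?_) hη
      have hs' : ‖s‖ ≤ δ * (R + 2) := by rwa [mem_closedBall_zero_iff] at hs
      have h1 := (hρs s (by rw [mem_ball_zero_iff]; linarith)).2 j hji
      have ha0 : 0 < ‖a j 0‖ := norm_pos_iff.2 (ha j hji)
      have h2 : ‖κ j * (δ : ℂ) ^ M j * Complex.exp ((δ : ℂ)⁻¹ * s)‖ < ‖a j 0‖ / 2 := by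
        by_cases hj : D j
        · have hm : 0 < m := hji.resolve_left (not_not.2 hj)
          simp only [κ, M, if_pos hj, one_mul]
          refine lt_of_le_of_lt ?_ (hδa j hj hm)
          rw [norm_mul, norm_pow, Complex.norm_real, Real.norm_of_nonneg hδ0.le]
          refine mul_le_mul ?_ (hexpn s hs') (norm_nonneg _) hδ0.le
          calc δ ^ m ≤ δ ^ 1 := pow_le_pow_of_le_one hδ0.le hδ1 hm
            _ = δ := pow_one δ
        · simp only [κ, if_neg hj, zero_mul, norm_zero]
          positivity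
      have h3 : g j s - a j 0 = ((P j).eval s - a j 0) +
          κ j * (δ : ℂ) ^ M j * Complex.exp ((δ : ℂ)⁻¹ * s) := by
        simp only [g, tg]
        ring
      rw [h3]
      refine (norm_add_le _ _).trans_lt ?_
      linarith
    · rw [not_or, not_not] at hji
      obtain ⟨hj, hm⟩ := hji
      have hm0 : m = 0 := by omega
      refine ⟨fun s => (δ : ℂ)⁻¹ * s, by fun_prop, fun s _ => ?_⟩
      have h1 : g j s = Complex.exp ((δ : ℂ)⁻¹ * s) := by
        simp only [g, tg, P, κ, M, if_pos hj, hm0, tp, Finset.range_zero, Finset.sum_empty,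
          Polynomial.eval_zero, pow_zero, one_mul, zero_add]
      rw [h1, sub_self, norm_zero]
      exact hη
  choose q hqd hqg using hq
  obtain ⟨c, hc⟩ := hur q hqd η hη
  refine ⟨c, δ, hδ0, hδR, fun j => (hc j).1.mono (ball_subset_ball (by linarith)), fun t ht => ?_⟩
  -- Cauchy estimates
  have hs0 : ‖(δ : ℂ) * t‖ < δ * R := by
    rw [norm_mul, Complex.norm_real, Real.norm_of_nonneg hδ0.le]
    exact mul_lt_mul_of_pos_left ht hδ0
  have hcau : ∀ j i, i < n →
      ‖iteratedDeriv i (u j) (c + δ * t) - iteratedDeriv i (g j) (δ * t)‖ ≤ ε / 4 := by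
    intro j i hi
    have hshift : DifferentiableOn ℂ (fun s => u j (c + s)) (ball 0 (δ * (R + 1))) := by
      refine (hc j).1.comp (by fun_prop) fun s hs => ?_
      rw [mem_ball_zero_iff] at hs
      rw [mem_ball, dist_eq_norm, add_sub_cancel_left]
      linarith
    have hmem : (δ : ℂ) * t ∈ ball (0 : ℂ) (δ * (R + 1)) := by
      rw [mem_ball_zero_iff]
      nlinarith
    have hsub : closedBall ((δ : ℂ) * t) (δ / 2) ⊆ ball 0 (δ * (R + 1)) := by
      intro s hs
      rw [mem_closedBall, dist_eq_norm] at hs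
      rw [mem_ball_zero_iff]
      calc ‖s‖ = ‖(s - δ * t) + δ * t‖ := by congr 1; ring
        _ ≤ ‖s - δ * t‖ + ‖(δ : ℂ) * t‖ := norm_add_le _ _
        _ < δ / 2 + δ * R := by linarith
        _ ≤ δ * (R + 1) := by nlinarith
    have hD : DifferentiableOn ℂ (fun s => u j (c + s) - g j s) (ball 0 (δ * (R + 1))) :=
      hshift.sub (hg j).differentiableOn
    have h1 := Complex.norm_iteratedDeriv_le_of_forall_mem_sphere_norm_le (c := (δ : ℂ) * t)
      (R := δ / 2) (C := 2 * η) i (by positivity) (hD.diffContOnCl_ball hsub) (fun z hz => by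
        have hz' : z ∈ ball (0 : ℂ) (δ * (R + 1)) := hsub (sphere_subset_closedBall hz)
        have h2 := (hc j).2 z (ball_subset_ball (by linarith) hz')
        have h3 := hqg j z hz'
        calc ‖u j (c + z) - g j z‖
            = ‖(u j (c + z) - Complex.exp (q j z)) + (Complex.exp (q j z) - g j z)‖ := by
              congr 1; ring
          _ ≤ ‖u j (c + z) - Complex.exp (q j z)‖ + ‖Complex.exp (q j z) - g j z‖ :=
              norm_add_le _ _
          _ ≤ 2 * η := by linarith)
    have hA1 : ContDiffAt ℂ i (fun s => u j (c + s)) (δ * t) :=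
      ((hshift.analyticOnNhd isOpen_ball) _ hmem).contDiffAt
    have hA2 : ContDiffAt ℂ i (g j) (δ * t) := (hg j).contDiff.contDiffAt
    have h4 : iteratedDeriv i (fun s => u j (c + s) - g j s) (δ * t) =
        iteratedDeriv i (u j) (c + δ * t) - iteratedDeriv i (g j) (δ * t) := by
      have e1 : (fun s => u j (c + s) - g j s) = (fun s => u j (c + s)) - g j := rfl
      rw [e1, iteratedDeriv_sub hA1 hA2, iteratedDeriv_comp_const_add]
    rw [h4] at h1
    refine h1.trans ?_
    have h5 : (1 : ℝ) ≤ 2 / δ := by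
      rw [le_div_iff₀ hδ0]
      linarith
    have h6 : ((i.factorial : ℕ) : ℝ) ≤ n.factorial := by
      exact_mod_cast Nat.factorial_le hi.le
    calc (i.factorial : ℝ) * (2 * η) / (δ / 2) ^ i = i.factorial * (2 * η) * (2 / δ) ^ i := by
          rw [div_pow, div_pow, div_div_eq_mul_div]
          ring
      _ ≤ n.factorial * (2 * η) * (2 / δ) ^ n := by
          have := pow_le_pow_right₀ h5 hi.le
          gcongr
      _ = ε / 4 := by
          rw [hηdef]
          field_simp
          ring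
  have hpt : (δ : ℂ)⁻¹ * (δ * t) = t := by
    field_simp
  have hs0ρ : (δ : ℂ) * t ∈ ball (0 : ℂ) ρ := by
    rw [mem_ball_zero_iff]
    nlinarith
  refine ⟨fun j i hi hji => ?_, ?_⟩
  · have h1 := hcau j i hi
    have h2 := (hρs _ hs0ρ).1 j i (Finset.mem_range.2 hi) hji
    have h3 : iteratedDeriv i (g j) (δ * t) = (Polynomial.derivative^[i] (P j)).eval (δ * t) +
        κ j * (δ : ℂ) ^ (M j - i) * Complex.exp t := by
      simp only [g]
      rw [tg_deriv _ _ _ hδ0.ne' _ _ (hMi j i hi hji), hpt]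
    have h4 : ‖κ j * (δ : ℂ) ^ (M j - i) * Complex.exp t‖ < ε / 4 := by
      by_cases hj : D j
      · have him : i < m := hji.resolve_left (not_not.2 hj)
        simp only [κ, M, if_pos hj, one_mul]
        refine lt_of_le_of_lt ?_ hδε
        rw [norm_mul, norm_pow, Complex.norm_real, Real.norm_of_nonneg hδ0.le]
        have h5 := hexpn (δ * t) (by nlinarith)
        rw [hpt] at h5
        refine mul_le_mul ?_ h5 (norm_nonneg _) hδ0.le
        calc δ ^ (m - i) ≤ δ ^ 1 := pow_le_pow_of_le_one hδ0.le hδ1 (by omega)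
          _ = δ := pow_one δ
      · simp only [κ, if_neg hj, zero_mul, norm_zero]
        positivity
    rw [h3] at h1
    calc ‖iteratedDeriv i (u j) (c + δ * t) - a j i‖
        = ‖(iteratedDeriv i (u j) (c + δ * t) - ((Polynomial.derivative^[i] (P j)).eval (δ * t) +
          κ j * (δ : ℂ) ^ (M j - i) * Complex.exp t)) +
          ((Polynomial.derivative^[i] (P j)).eval (δ * t) - a j i) +
          κ j * (δ : ℂ) ^ (M j - i) * Complex.exp t‖ := by
          congr 1; ring
      _ ≤ _ := norm_add₃_le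
      _ < ε := by linarith
  · intro j hj
    have h1 := hcau j m hmn
    have h3 : iteratedDeriv m (g j) (δ * t) = Complex.exp t := by
      simp only [g]
      have hM0 : M j = m := if_pos hj
      have hκ0 : κ j = 1 := if_pos hj
      have hPj : P j = tp (a j) m := if_pos hj
      rw [tg_deriv _ _ _ hδ0.ne' _ _ (by rw [hM0]), hpt, hPj, tp_degree _ _ _ le_rfl, hM0, hκ0,
        Nat.sub_self, pow_zero, Polynomial.eval_zero]
      ring
    rw [h3] at h1
    linarith

end Pool.Agent.X316.ZE
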